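import Pool.Agent.H48.OW.Cfo
import Pool.Agent.H12.OW.Eta
import Pool.Agent.H35.OW.Pat

/-!
# [H48 OW CLS] MP_b39724_nt, THEOREM OW, S4: the classes of the tuples of places, definitions

`S = Sp Pa (Px c)`, `M = d + 1` own indices, `O = owl hp c (d + 1)`, `S' = So`, `P' = P × Ci p (d + 1)`. `f : Pl K → Option (Elb2 c S q d)`, `v : Fin (d + 1) → Pl K`; in the box `f = up b v l`.
* `gq f v`: the letters with own index. `Yq f v`: the data `AD` with own letters. `tq τ₀ f`: the conjugators (without own letters). `xq τ₀ f v`: the values of the words.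
* `Kj v j = Kk (Tv (ixv v) (place of j))`: the changes of the letter `j`; `kj_inl`.
* `etq ψ τ₀ e₀ f v`: the one layer family `η`, computed at the values `xq`.
* `Ob W Zc E b v v'`: the tuples have the same order in `W.l` relative to the places of `b`, `E`, `S0` and among themselves.
* `Cel b l τ₀ v₀ v`: the tuples `v₀`, `v` are in the same class: `Ob`, and the values of the words agree after the own letters of index `k` are killed, for all `k` (`k ≠ i` at `v i`).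
* `tf2_inc`, `kl_tq`, `ev_tq`, `xq_ev`.
-/

set_option autoImplicit false

open scoped NumberField commutatorElement
open IsDedekindDomain
open scoped Classical

noncomputable section

namespace H48.OW

open H63.MA H38.BB H38.BG H57.PC H57.BRA H77.WD H77.WE H77.PC3 H35.CF H35.UB H77.S3 H71.S3 H1.S3
  H73.S3 H73.OW H82.S3 H12.OW

section cls

variable {K : Type} [Field K] [NumberField K] {Ω : Type} [Field Ω] [Algebra K Ω]
  {p N : ℕ} {ζ : K} {D : RD0 K p ζ} {Q : DP K Ω} {A : GS D Ω} {P : Type} [Group P] {hp : p.Prime}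
  {c : CL p N P} {Pa : Par} {q d : ℕ}

/-- the letters with own index -/
def gq (hp : p.Prime) (f : Pl K → Option (Elb2 c (Sp Pa (Px c)) q d)) (v : Fin (d + 1) → Pl K) :
    Pl K → Option (Px (cO hp c (d + 1))) := H93.OW.rc (hp := hp) (lf2 f) v

/-- the data with own letters -/
abbrev Yq (G' : SG (cO hp c (d + 1)) (So hp c (d + 1) Pa)) (B : SD D Q A) (X : FD A P (Sp Pa (Px c))) (W : WF A)
    (T : ℝ) (Zc : Finset (Pl K)) (f : Pl K → Option (Elb2 c (Sp Pa (Px c)) q d)) (v : Fin (d + 1) → Pl K) :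
    AD (So hp c (d + 1) Pa) (P × Ci p (d + 1)) (Pl K ⊕ Fin A.g) (Pl K) :=
  adf G' B (fdo hp c (d + 1) X) W T Zc (gq hp f v)

/-- the conjugators -/
def tq (hp : p.Prime) (τ₀ : Pl K → Sp Pa (Px c)) (f : Pl K → Option (Elb2 c (Sp Pa (Px c)) q d)) (w : Pl K) :
    So hp c (d + 1) Pa := (owl hp c (d + 1)).inc Pa (tf2 τ₀ f w)

/-- the values of the words -/
abbrev xq (G' : SG (cO hp c (d + 1)) (So hp c (d + 1) Pa)) (B : SD D Q A) (X : FD A P (Sp Pa (Px c))) (W : WF A)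
    (T : ℝ) (Zc : Finset (Pl K)) (τ₀ : Pl K → Sp Pa (Px c)) (f : Pl K → Option (Elb2 c (Sp Pa (Px c)) q d))
    (v : Fin (d + 1) → Pl K) : Pl K ⊕ Fin A.g → SP (So hp c (d + 1) Pa) (P × Ci p (d + 1)) :=
  (Yq G' B X W T Zc f v).vl (tq hp τ₀ f)

/-- the changes of the letter `j` -/
def Kj (hp : p.Prime) (c : CL p N P) (Pa : Par) (B : SD D Q A) (v : Fin (d + 1) → Pl K) (j : Pl K ⊕ Fin A.g) :
    Subgroup (So hp c (d + 1) Pa) :=
  (owl hp c (d + 1)).Kk Pa (Tv (H93.OW.ixv v) (Sum.elim id B.pl j))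

/-- the one layer family -/
def etq (G' : SG (cO hp c (d + 1)) (So hp c (d + 1) Pa)) (B : SD D Q A) (X : FD A P (Sp Pa (Px c))) (W : WF A)
    (T : ℝ) (Zc : Finset (Pl K)) (psi : So hp c (d + 1) Pa → ZMod q) (τ₀ : Pl K → Sp Pa (Px c))
    (e₀ : Pl K ⊕ Fin A.g → El2 (Sp Pa (Px c)) P q d) (f : Pl K → Option (Elb2 c (Sp Pa (Px c)) q d))
    (v : Fin (d + 1) → Pl K) (j : Pl K ⊕ Fin A.g) :
    Du (So hp c (d + 1) Pa) q d × Du (So hp c (d + 1) Pa) q (d + 1) :=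
  (owl hp c (d + 1)).eta Pa (Yq G' B X W T Zc f v) (H93.OW.ixv v)
    (H24.OW.ka ((owl hp c (d + 1)).ev Pa) psi (Yq G' B X W T Zc f v) (tq hp τ₀ f)
      (xq G' B X W T Zc τ₀ f v) fun j => (ef2 e₀ f j).1) j

/-- the same order -/
def Ob (W : WF A) (Zc E : Finset (Pl K)) {Λ : Type} {n : ℕ} (b : Pl K → Option Λ) (v v' : Fin n → Pl K) : Prop :=
  (∀ w, w ∈ sp Zc b ∨ w ∈ E ∨ w ∈ D.S0 → ∀ k, (W.l.idxOf w < W.l.idxOf (v k) ↔ W.l.idxOf w < W.l.idxOf (v' k))) ∧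
    ∀ k j, (W.l.idxOf (v k) < W.l.idxOf (v j) ↔ W.l.idxOf (v' k) < W.l.idxOf (v' j))

/-- the same class -/
structure Cel (G' : SG (cO hp c (d + 1)) (So hp c (d + 1) Pa)) (B : SD D Q A) (X : FD A P (Sp Pa (Px c))) (W : WF A)
    (T : ℝ) (Zc : Finset (Pl K)) (τ₀ : Pl K → Sp Pa (Px c)) (b : Pl K → Option (Elb2 c (Sp Pa (Px c)) q d))
    (l : Fin (d + 1) → Elb2 c (Sp Pa (Px c)) q d) (v v' : Fin (d + 1) → Pl K) : Prop where
  ob : Ob W Zc X.E b v v'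
  fx : ∀ j ∈ (sp Zc b ∪ X.E).disjSum (Finset.univ : Finset (Fin A.g)), ∀ k,
    KL hp c (d + 1) Pa {k}ᶜ (xq G' B X W T Zc τ₀ (up b v l) v j) =
      KL hp c (d + 1) Pa {k}ᶜ (xq G' B X W T Zc τ₀ (up b v' l) v' j)
  vr : ∀ i k, k ≠ i → KL hp c (d + 1) Pa {k}ᶜ (xq G' B X W T Zc τ₀ (up b v l) v (Sum.inl (v i))) =
    KL hp c (d + 1) Pa {k}ᶜ (xq G' B X W T Zc τ₀ (up b v' l) v' (Sum.inl (v' i)))

/-- the values of the class of `v` at the letters of `up b v' l` -/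
def x0q (G' : SG (cO hp c (d + 1)) (So hp c (d + 1) Pa)) (B : SD D Q A) (X : FD A P (Sp Pa (Px c))) (W : WF A)
    (T : ℝ) (Zc : Finset (Pl K)) (τ₀ : Pl K → Sp Pa (Px c)) (b : Pl K → Option (Elb2 c (Sp Pa (Px c)) q d))
    (l : Fin (d + 1) → Elb2 c (Sp Pa (Px c)) q d) (v v' : Fin (d + 1) → Pl K) :
    Pl K ⊕ Fin A.g → SP (So hp c (d + 1) Pa) (P × Ci p (d + 1)) :=
  Sum.elim (fun w => (H93.OW.ixv v' w).elim (xq G' B X W T Zc τ₀ (up b v l) v (Sum.inl w))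
    fun k => xq G' B X W T Zc τ₀ (up b v l) v (Sum.inl (v k)))
    fun i => xq G' B X W T Zc τ₀ (up b v l) v (Sum.inr i)

theorem ev_tq (τ₀ : Pl K → Sp Pa (Px c)) (f : Pl K → Option (Elb2 c (Sp Pa (Px c)) q d)) (w : Pl K) :
    (owl hp c (d + 1)).ev Pa (tq hp τ₀ f w) = tf2 τ₀ f w := (owl hp c (d + 1)).ev_inc Pa _

theorem kl_tq (F : Finset (Fin (d + 1))) (τ₀ : Pl K → Sp Pa (Px c)) (f : Pl K → Option (Elb2 c (Sp Pa (Px c)) q d)) (w : Pl K) :
    (owl hp c (d + 1)).kl Pa F (tq hp τ₀ f w) = tq hp τ₀ f w := (owl hp c (d + 1)).kl_inc Pa F _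

theorem fe_gq (f : Pl K → Option (Elb2 c (Sp Pa (Px c)) q d)) (v : Fin (d + 1) → Pl K) : fe (gq hp f v) = lf2 f := fe_rc _ _

/-- the values after the evaluation -/
theorem xq_ev {G : SG c (Sp Pa (Px c))} {G' : SG (cO hp c (d + 1)) (So hp c (d + 1) Pa)} (hG : ∀ x, G.y x = sy Pa x)
    (hG' : ∀ x, G'.y x = sy Pa x) (B : SD D Q A) (X : FD A P (Sp Pa (Px c))) (W : WF A) (T : ℝ) (Zc : Finset (Pl K))
    (τ₀ : Pl K → Sp Pa (Px c)) (f : Pl K → Option (Elb2 c (Sp Pa (Px c)) q d)) (v : Fin (d + 1) → Pl K) (j : Pl K ⊕ Fin A.g) :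
    EV hp c (d + 1) Pa (xq G' B X W T Zc τ₀ f v j) = (adx2 G B X W T Zc f).vl (tf2 τ₀ f) j := by
  have h := ado_vl (G := G) (G' := G') (B := B) (X := X) (W := W) (T := T) (Zc := Zc) (g := gq hp f v) hG hG' (tq hp τ₀ f) j
  rw [fe_gq] at h
  have h2 : (fun v => (owl hp c (d + 1)).ev Pa (tq hp τ₀ f v)) = tf2 τ₀ f := funext fun w => ev_tq τ₀ f w
  rw [h2] at h
  exact h

end cls

end H48.OW
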