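import Pool.Agent.H48.OW.Ch

/-!
# [H48 OW SGO] MP_b39724_nt, THEOREM OW, S4: the instance `SG (cO hp c M) S'`, `S' = Sp Pa (Px (cO hp c M))`
-/

set_option autoImplicit false

open scoped Classical commutatorElement

noncomputable section

namespace H48.OW

open Pool.Agent.H61.Tu H77.PC3 H35.UB H73.S3 H82.S3

variable {p N : ℕ} {P : Type} [Group P]

theorem tlo_le {hp : p.Prime} {c : CL p N P} {M : ℕ} {t : P × Ci p M} (ht : t ∈ TL (cO hp c M)) : t.1 ∈ TL c := by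
  unfold TL at ht
  induction ht using Subgroup.closure_induction with
  | mem x hx =>
    obtain ⟨x, rfl⟩ := hx
    exact Subgroup.subset_closure ⟨fs x, rfl⟩
  | one => exact one_mem _
  | mul x y _ _ hx hy => exact mul_mem hx hy
  | inv x _ hx => exact inv_mem hx

/-- the projection of `TL` -/
def tlf (hp : p.Prime) (c : CL p N P) (M : ℕ) : TL (cO hp c M) →* TL c where
  toFun t := ⟨t.1.1, tlo_le t.2⟩
  map_one' := rfl
  map_mul' _ _ := rfl

/-- the projection to `C` -/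
def tls (hp : p.Prime) (c : CL p N P) (M : ℕ) : TL (cO hp c M) →* Ci p M where
  toFun t := t.1.2
  map_one' := rfl
  map_mul' _ _ := rfl

theorem gam_comm1 {A : Type} [CommGroup A] {x : A} (hx : x ∈ gam A 1) : x = 1 := by
  have h : gam A 1 = ⊥ := by
    rw [eq_bot_iff]
    show ⁅gam A 0, (⊤ : Subgroup A)⁆ ≤ ⊥
    rw [Subgroup.commutator_le]
    intro a _ b _
    rw [Subgroup.mem_bot, commutatorElement_def, mul_comm a b, mul_assoc, mul_assoc, ← mul_assoc a, mul_inv_cancel, one_mul,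
      mul_inv_cancel]
  rw [h, Subgroup.mem_bot] at hx
  exact hx

/-- the class of `TL` -/
theorem tlo_gam (hp : p.Prime) (c : CL p N P) (M : ℕ) {n : ℕ} (hn : 1 ≤ n) (h : gam (TL c) n = ⊥) :
    gam (TL (cO hp c M)) n = ⊥ := by
  rw [eq_bot_iff]
  intro t ht
  have h1 := gam_map (tlf hp c M) n ht
  rw [h, Subgroup.mem_bot] at h1
  have h2 := gam_comm1 (gam_anti hn (gam_map (tls hp c M) n ht))
  rw [Subgroup.mem_bot]
  exact Subtype.ext (Prod.ext (congrArg Subtype.val h1) h2)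

/-- the instance -/
theorem sgo_exists (hp : p.Prime) (c : CL p N P) (M : ℕ) (Pa : Par) (h1 : gam (TL c) Pa.c = ⊥)
    (h2 : ∀ t ∈ TL c, t ^ (Pa.p ^ Pa.M Pa.c) = 1) (h3 : p ∣ Pa.p ^ Pa.M Pa.c) :
    ∃ G : SG (cO hp c M) (Sp Pa (Px (cO hp c M))), (∀ x, G.y x = sy Pa x) ∧ ∀ u, G.pi u ∈ TL (cO hp c M) := by
  refine sg_exists Pa (tlo_gam hp c M Pa.hc h1) fun t ht => Prod.ext ?_ ?_
  · exact h2 _ (tlo_le ht)
  · show t.2 ^ (Pa.p ^ Pa.M Pa.c) = 1
    obtain ⟨k, hk⟩ := h3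
    rw [hk, pow_mul, ci_pow, one_pow]

end H48.OW
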