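import Pool.Agent.H48.OW.Cib
import Pool.Agent.H48.OW.Sgo
import Pool.Agent.H1.OW.Stw
import Pool.Agent.H93.BX.Crd

/-!
# [H48 OW BX2] MP_b39724_nt, THEOREM OW, S4: THE BOX INEQUALITY WITH TWO LAYERS

* `pso_psio`: the structure of H97/OW/Def. `mx_siz`: the size condition.
* `bxf2`: `BxF2` for the pattern `pat r w` of a bad word, for a quasi Lie functional (`QB`), from the bilinear large sieve (BLG). Any prime `p`, any class list.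
* `bx2h`: the form `Bx2H` of H1/OW/Stw.
-/

set_option autoImplicit false

open scoped NumberField commutatorElement
open IsDedekindDomain
open scoped Classical

noncomputable section

namespace H48.OW

open H63.MA H38.BB H38.BG H57.PC H57.BRA H77.WD H77.WE H77.PC3 H35.CF H35.UB H77.S3 H71.S3 H1.S3
  H24.RK H73.S3 H73.OW H82.S3 H12.OW H88.OW H35.OW H12.FB H93.BY

attribute [local instance 50] Fintype.ofFinite

/-- the structure of H97/OW/Def -/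
theorem pso_psio {Pa : Par} {P P' A Be : Type} [Group P] [Group P'] [MulAction P A] [MulAction P' Be] {q d : ℕ}
    {O : OwL P P' A Be (Fin (d + 1))} {Bf : ∀ i j : ℕ, Gr (Sp Pa A) i →+ Gr (Sp Pa A) j →+ ZMod q} {psi : Sp Pa Be → ZMod q}
    {R : Subgroup P} {kap : P → Du (Sp Pa A) q (d + 1 + 1)} (h : Pso O d R psi kap Bf) : H97.OW.PsiO O Pa Bf psi R kap where
  add := h.pk.add
  bot := h.pk.bot
  com i j hi hj hij T T' hT u hu hui w hw hwj :=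
    h.br i j hi hj hij T T' (un_inst _ _ T T' hT) u hu hui w hw hwj
  eqv g hg u hu hn := (h.ka g hg u hu hn).symm

theorem pw_ge (q : ℕ) (hq : 2 ≤ q) : ∀ x : ℕ, 1 ≤ x → x * q ≤ q ^ x := by
  intro x hx
  induction x, hx using Nat.le_induction with
  | base => rw [one_mul, pow_one]
  | succ x hx ih =>
    have h1 : q ≤ x * q := Nat.le_mul_of_pos_left _ hx
    calc (x + 1) * q = x * q + q := by ring
      _ ≤ x * q + x * q := by omega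
      _ = 2 * (x * q) := by ring
      _ ≤ q * q ^ x := Nat.mul_le_mul hq ih
      _ = q ^ (x + 1) := by ring

/-- the size condition -/
theorem mx_siz {p κ c₀ mm k : ℕ} {P S : Type} [Group P] [Group S] [Finite S] [NeZero (p ^ κ)]
    (h : Siz p κ c₀ mm k P S) : Nat.card P * Nat.card S ^ 2 * p ^ κ ≤ H93.BX.Mx (p ^ κ) mm := by
  refine le_trans ?_ (H93.BX.mx_le (q := p ^ κ) mm)
  refine le_trans ?_ h.h1
  have hS : 1 ≤ Nat.card S := Nat.card_pos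
  by_cases hq : 2 ≤ p ^ κ
  · have h1 := pw_ge (p ^ κ) hq (Nat.card S) hS
    calc Nat.card P * Nat.card S ^ 2 * p ^ κ = Nat.card S * (Nat.card P * (Nat.card S * p ^ κ)) := by ring
      _ ≤ Nat.card S * (Nat.card P * (p ^ κ) ^ Nat.card S) :=
        Nat.mul_le_mul_left _ (Nat.mul_le_mul_left _ h1)
  · have hq1 : p ^ κ = 1 := by
      have := NeZero.pos (p ^ κ)
      omega
    have h2 : Nat.card S = 1 := by
      rw [Nat.card_eq_one_iff_unique]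
      refine ⟨⟨fun a b => ?_⟩, ⟨1⟩⟩
      have ha := h.qe a
      have hb := h.qe b
      rw [hq1, pow_one] at ha hb
      rw [ha, hb]
    rw [hq1, h2]
    norm_num

variable {K : Type} [Field K] [NumberField K] {Ω : Type} [Field Ω] [Algebra K Ω]
  {p N : ℕ} {ζ : K} {D : RD0 K p ζ} {Q : DP K Ω} {A : GS D Ω} {P : Type} [Group P]
  {c : CL p N P} {Pa : Par}

/-- THE BOX INEQUALITY WITH TWO LAYERS -/
theorem bxf2 [IsAlgClosure K Ω] [Fintype P] [Fintype (Sp Pa (Px c))] (hp : p.Prime) (hζ : IsPrimitiveRoot ζ p)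
    {κ mm c₁ N₁ k₀ : ℕ} {z : K} [NeZero (p ^ κ)] (B : SD D Q A) (hB : BLG D Ω Q A B κ mm c₁ N₁ z)
    (hg : A.g ≤ c₁) (G : SG c (Sp Pa (Px c))) (hG : ∀ x, G.y x = sy Pa x)
    (hTL : Pool.Agent.H61.Tu.gam (TL c) Pa.c = ⊥) (hexp : ∀ t : P, t ^ (Pa.p ^ Pa.M Pa.c) = 1)
    (hdv : p ∣ Pa.p ^ Pa.M Pa.c) (hq0 : Pa.q 0 ∣ p ^ κ)
    (hS : Siz p κ Pa.c mm k₀ P (Sp Pa (Px c))) (h : ℕ)
    (hS' : Siz p κ Pa.c mm k₀ (P × Ci p (2 * h + 1 + 1 + 1)) (So hp c (2 * h + 1 + 1 + 1) Pa))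
    (hc : 2 * h + 1 + 1 + 2 ≤ Pa.c) (M : ℕ) (C₁ A' ε : ℝ) (hε : 0 < ε) :
    ∃ C₂ : ℕ, ∀ C' : ℕ, ∃ Y₀ : ℝ, ∀ Y : ℝ, Y₀ ≤ Y →
      ∀ (k Mw : ℕ) (X : FD A P (Sp Pa (Px c))) (W : WF A) (T : ℝ),
      BxH G B X W κ mm N₁ z C₁ C₂ C' ε Y k Mw T →
      NgOk G B X W k Mw (p ^ κ) Pa.c T (Zg D W.Z X.E) →
      ∀ (x : (Px c → Du (Sp Pa (Px c)) (p ^ κ) (2 * h + 1 + 1 + 1)) ×
          (P → Du (Sp Pa (Px c)) (p ^ κ) (2 * h + 1 + 1 + 1 + 1)))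
        (Bf : ∀ i j : ℕ, Gr (Sp Pa (Px c)) i →+ Gr (Sp Pa (Px c)) j →+ ZMod (p ^ κ)),
        QB G.y (Pa.q (2 * h + 1 + 1 + 1)) (Rh X W) x.1 x.2 Bf → ∀ (r : Px c) (w : Fin (h + 1) → Px c),
        Bf (h + 1 + 1) (h + 1 + 1) (gk (h + 1 + 1) (rw1 G r w)) (gk (h + 1 + 1) (rw1 G r w)) ≠ 0 →
        BxF2 (d := 2 * h + 1 + 1) G B X W T (Zg D W.Z X.E)
          (fun f => etX G B X W T (Zg D W.Z X.E) f x) Bf (pat r w) M C₁ A' Y := by
  have hpn : NeZero p := ⟨hp.ne_zero⟩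
  have hfC : Finite (Ci p (2 * h + 1 + 1 + 1)) :=
    inferInstanceAs (Finite (Fin (2 * h + 1 + 1 + 1) → ZMod p))
  have hfPC : Finite (P × Ci p (2 * h + 1 + 1 + 1)) := inferInstance
  have hfS : Finite (Sp Pa (Px c)) := inferInstance
  have hfS' : Finite (So hp c (2 * h + 1 + 1 + 1) Pa) := inferInstance
  obtain ⟨G', hG', -⟩ := sgo_exists hp c (2 * h + 1 + 1 + 1) Pa hTL (fun t _ => hexp t) hdv
  obtain ⟨L, hL⟩ : ∃ L : ℝ, L = 2 ^ (2 * h + 1 + 1 + 1) *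
      (Nat.card (SP (So hp c (2 * h + 1 + 1 + 1) Pa) (P × Ci p (2 * h + 1 + 1 + 1))) : ℝ) ^
        (2 * h + 1 + 1 + 1) *
      Nat.card (Du (So hp c (2 * h + 1 + 1 + 1) Pa) (p ^ κ) (2 * h + 1 + 1 + 1)) := ⟨_, rfl⟩
  have hfin : Finite (SP (So hp c (2 * h + 1 + 1 + 1) Pa) (P × Ci p (2 * h + 1 + 1 + 1))) :=
    Finite.of_injective (fun x => (x.left, x.right)) fun x y h =>
      SemidirectProduct.ext (congrArg Prod.fst h) (congrArg Prod.snd h)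
  have hL1 : 1 ≤ L := by
    rw [hL]
    have a1 : (1 : ℝ) ≤ 2 ^ (2 * h + 1 + 1 + 1) := one_le_pow₀ (by norm_num)
    have a2 : (1 : ℝ) ≤ (Nat.card (SP (So hp c (2 * h + 1 + 1 + 1) Pa)
        (P × Ci p (2 * h + 1 + 1 + 1))) : ℝ) ^ (2 * h + 1 + 1 + 1) :=
      one_le_pow₀ (by exact_mod_cast Nat.card_pos)
    have a3 : (1 : ℝ) ≤ Nat.card (Du (So hp c (2 * h + 1 + 1 + 1) Pa) (p ^ κ) (2 * h + 1 + 1 + 1)) := by
      exact_mod_cast Nat.card_pos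
    exact one_le_mul_of_one_le_of_one_le (one_le_mul_of_one_le_of_one_le a1 a2) a3
  have hdu : ∀ j, Nat.card (Du (So hp c (2 * h + 1 + 1 + 1) Pa) (p ^ κ) j) ≤
      (p ^ κ) ^ Nat.card (So hp c (2 * h + 1 + 1 + 1) Pa) := fun j => card_du
  obtain ⟨C₂, hC₂⟩ := H93.OW.bxf2_ci (d := 2 * h + 1 + 1) (n := 2 * h + 1) hp hζ B hB G G' hS'.pS hS'.pP hS'.qe
    (by
      have := hS.h0
      omega) hg
    (le_trans (Nat.mul_le_mul le_rfl (Nat.mul_le_mul le_rfl (hdu _))) hS'.h1)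
    (le_trans (Nat.mul_le_mul (Nat.card_le_card_of_injective
      (fun x : Px (cO hp c (2 * h + 1 + 1 + 1)) => x.1) Subtype.val_injective) (hdu _)) hS'.h2)
    (D.S0.card + A.g + (2 * h + 1 + 1 + 1)) L C₁ A' ε hL1 hε
  refine ⟨C₂, fun C' => ?_⟩
  obtain ⟨Y₀, hY₀⟩ := hC₂ C'
  refine ⟨Y₀, fun Y hY k Mw X W T hX hN x Bf hQB r w hbad => ?_⟩
  have hXo : BxH G' B (fdo hp c (2 * h + 1 + 1 + 1) X) W κ mm N₁ z C₁ C₂ C' ε Y k Mw T :=
    ⟨fdo_ok hG hG' hX.okX, hX.okW, hX.mM, hX.kM, hX.nl, hX.gl, hX.all, hX.ez, hX.ne, hX.lT⟩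
  have hH : Hy (d := 2 * h + 1 + 1) hp G G' B X W (Zg D W.Z X.E) k Mw (p ^ κ) :=
    { hG := hG
      hG' := hG'
      okF := hX.okX
      okW := hX.okW
      zc := hN.zc
      ez := hN.ez
      ze := hN.ze
      pP := hS.pP
      pS := hS.pS
      pS' := hS'.pS
      qe := hS.qe
      qe' := hS'.qe
      q0 := hq0
      qp := ⟨κ, rfl⟩
      kM := hX.kM
      mx := (mx_siz hS).trans hX.mM
      mx' := (mx_siz hS').trans hX.mM
      d2 := by omega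
      dc := hc }
  have hQB' : QB (sy Pa) (Pa.q (2 * h + 1 + 1 + 1)) (Rh X W) x.1 x.2 Bf := by
    have e1 : G.y = sy Pa := funext hG
    rw [e1] at hQB
    exact hQB
  obtain ⟨psi, hpsi⟩ := pso_ex (d := 2 * h + 1 + 1) (q := p ^ κ) (owl hp c (2 * h + 1 + 1 + 1)) (by omega) hc
    hq0 hS'.qe hQB'
  have hQ : Hq hp G X W (p ^ κ) (2 * h + 1 + 1) x Bf psi := ⟨hQB, pso_psio hpsi⟩
  refine hY₀ Y hY k Mw (fdo hp c (2 * h + 1 + 1 + 1) X) W T hXo X rfl (fun v => (ppo X W T v).symm)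
    (fun f => etX G B X W T (Zg D W.Z X.E) f x) Bf (pat r w) M fun τ₀ e₀ l b _ => ?_
  rw [hL]
  refine ci_sm2 hH hQ (pat r w) M τ₀ e₀ l b fun v hv hR hC hK Qs => ?_
  exact H57.OW.c6q (h := h + 1) (by omega) hH hQ hv hR hC hK hbad Qs

section qb

open H1.OW H38.ML

/-- the box inequality with two layers, in the form of H1/OW/Stw -/
theorem bx2h {K : IntermediateField ℚ QBar} [NumberField K] {p N : ℕ} {ζ : K} {D : RD0 K p ζ}
    {P : Type} [Group P] {c : CL p N P} {Q : DP K QBar} {A : GS D QBar} {Pa : Par} [Fintype P]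
    (hp : p.Prime) (hζ : IsPrimitiveRoot ζ p) {κ mm c₁ n k₀ : ℕ} [NeZero (p ^ κ)] {z : K}
    (B : SD D Q A) (G : SG c (Sp Pa (Px c))) (hPr : Prw hp κ mm k₀ Pa G)
    (hB : BLG D QBar Q A B κ mm c₁ n z) : Bx2H hp κ mm c₁ n z B G := by
  intro h hh hc hg M _ C₁ A' ε hε
  obtain ⟨h, rfl⟩ : ∃ h', h = h' + 1 := ⟨h - 1, by omega⟩
  have hq0 : Pa.q 0 ∣ p ^ κ := by
    rw [hPr.hκ]
    show Pa.p ^ Pa.M 1 ∣ p ^ Pa.M 1
    rw [hPr.hPa]
  obtain ⟨C₂, hC₂⟩ := bxf2 hp hζ B hB hg G hPr.hG hPr.hTL hPr.hexp hPr.hdv hq0 hPr.sz h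
    (hPr.sz' (2 * h + 1 + 1 + 1) (by omega)) (by omega) M C₁ A' ε hε
  refine ⟨C₂, fun C' => ?_⟩
  obtain ⟨Y₀, hY₀⟩ := hC₂ C'
  exact ⟨Y₀, fun Y hY k Mw X W T hX _ hN x _ Bf hQB r w hbad => hY₀ Y hY k Mw X W T hX hN x Bf hQB r w hbad⟩

end qb

end H48.OW
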