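import Pool.Agent.H48.OW.Fdo
import Pool.Agent.H93.OW.Rc

/-!
# [H48 OW CFO] MP_b39724_nt, THEOREM OW, module B (frame `S'`): the data of a configuration with own letters

`v : Fin M → Pl K` a tuple of places, `f : Pl K → Option (Px c)` a configuration.
* `H93.OW.rc f v`: the recoloured configuration. `r0 hp c M f`: all letters without own index. `fe g`: forget the own index. `kg D g`: remove the letters of own index not in `D`.
  `fe_rc`, `rc_up`, `sp_fe`.
* for `g : Pl K → Option (Px (cO hp c M))`: `Y = adf G' B (fdo hp c M X) W T Zc g`, `X = adf G B X W T Zc (fe g)`: `ado_t` (`EV (Y.t j) = X.t j`), `ado_tr` (right part `((X.t j).right, 1)`),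
  `ado_jf`, `ado_pp`, `ado_ph`, `ado_th`, `ado_vl`, `ado_bk`, `ado_RR`.
* `kgo_t`: `KL D (Y.t j)` is the `t j` of the configuration `kg D g`; `kgo_th`, `kgo_vl`.
* `swp σ`: permutation of the own indices on `S'`; `SW σ` on `SP S' P'`.
-/

set_option autoImplicit false

open scoped NumberField commutatorElement
open IsDedekindDomain
open scoped Classical

noncomputable section

namespace H48.OW

open H63.MA H38.BB H38.BG H57.PC H57.BRA H77.WD H77.WE H77.PC3 H35.CF H35.UB H77.S3 H71.S3 H1.S3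
  H73.S3 H82.S3 H12.OW

section rcc

variable {V : Type} {p N : ℕ} {P : Type} [Group P] (hp : p.Prime) (c : CL p N P) (M : ℕ)

/-- all letters without own index -/
def r0 (f : V → Option (Px c)) (w : V) : Option (Px (cO hp c M)) := (f w).map fun a => mkx a none

variable {hp c M}

/-- forget the own index -/
def fe (g : V → Option (Px (cO hp c M))) (w : V) : Option (Px c) := (g w).map fs

/-- remove the letters of own index not in `D` -/
def kg (D : Finset (Fin M)) (g : V → Option (Px (cO hp c M))) (w : V) : Option (Px (cO hp c M)) :=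
  (g w).bind fun b => if ∀ i, ow b = some i → i ∈ D then some b else none

variable (hp c M) in
/-- the recoloured configuration -/
abbrev rc (f : V → Option (Px c)) (v : Fin M → V) : V → Option (Px (cO hp c M)) := H93.OW.rc (hp := hp) f v

theorem fe_rc (f : V → Option (Px c)) (v : Fin M → V) : fe (rc hp c M f v) = f :=
  funext fun w => H93.OW.rc_fs f v w

theorem rc_none (f : V → Option (Px c)) (v : Fin M → V) (w : V) : rc hp c M f v w = none ↔ f w = none :=
  H93.OW.rc_none

theorem sp_rc (Z : Finset V) (f : V → Option (Px c)) (v : Fin M → V) : sp Z (rc hp c M f v) = sp Z f :=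
  H93.OW.sp_rc Z f v

theorem fe_r0 (f : V → Option (Px c)) : fe (r0 hp c M f) = f := by
  funext w
  unfold fe r0
  rw [Option.map_map]
  cases f w with
  | none => rfl
  | some a => rfl

theorem fe_none (g : V → Option (Px (cO hp c M))) (w : V) : fe g w = none ↔ g w = none := by
  unfold fe
  rw [Option.map_eq_none_iff]

theorem r0_none (f : V → Option (Px c)) (w : V) : r0 hp c M f w = none ↔ f w = none := by
  unfold r0
  rw [Option.map_eq_none_iff]

theorem sp_r0 (Z : Finset V) (f : V → Option (Px c)) : sp Z (r0 hp c M f) = sp Z f := by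
  ext w
  rw [mem_sp, mem_sp]
  exact and_congr_right fun _ => not_congr (r0_none f w)

theorem sp_fe (Z : Finset V) (g : V → Option (Px (cO hp c M))) : sp Z (fe g) = sp Z g := by
  ext w
  rw [mem_sp, mem_sp]
  exact and_congr_right fun _ => not_congr (fe_none g w)

theorem rc_up (b : V → Option (Px c)) {v : Fin M → V} (hv : Function.Injective v)
    (l : Fin M → Px c) : rc hp c M (up b v l) v = up (r0 hp c M b) v fun k => mkx (l k) (some k) :=
  H93.OW.rc_up b hv l

end rcc

section frm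

variable {K : Type} [Field K] [NumberField K] {Ω : Type} [Field Ω] [Algebra K Ω]
  {p N : ℕ} {ζ : K} {D : RD0 K p ζ} {Q : DP K Ω} {A : GS D Ω} {P : Type} [Group P] {hp : p.Prime}
  {c : CL p N P} {M : ℕ} {Pa : Par} {G : SG c (Sp Pa (Px c))} {G' : SG (cO hp c M) (So hp c M Pa)}
  {B : SD D Q A} {X : FD A P (Sp Pa (Px c))} {W : WF A} {T : ℝ} {Zc : Finset (Pl K)}
  {g : Pl K → Option (Px (cO hp c M))}

theorem ado_jf : (adf G' B (fdo hp c M X) W T Zc g).Jf = (adf G B X W T Zc (fe g)).Jf := by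
  show (sp Zc g ∪ X.E).disjSum Finset.univ = (sp Zc (fe g) ∪ X.E).disjSum Finset.univ
  rw [sp_fe]

theorem ado_pp (j : Pl K ⊕ Fin A.g) : (adf G' B (fdo hp c M X) W T Zc g).pp j ↔
    (adf G B X W T Zc (fe g)).pp j := by
  rcases j with v | i
  · show v ∈ sp Zc g ∧ PPc (fdo hp c M X) W T v ↔ v ∈ sp Zc (fe g) ∧ PPc X W T v
    rw [sp_fe, ppo]
  · exact Iff.rfl

theorem ado_tr (j : Pl K ⊕ Fin A.g) : ((adf G' B (fdo hp c M X) W T Zc g).t j).right =
    (((adf G B X W T Zc (fe g)).t j).right, 1) := by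
  rcases j with v | i
  · show ((if v ∈ X.E then (⟨(owl hp c M).inc Pa (X.sv v), (X.φ (W.L.t v), 1)⟩ : SP (So hp c M Pa) (P × Ci p M)) else
      (if v ∈ Zc then g v else none).elim 1 fun s => il (G'.y s))).right =
      ((if v ∈ X.E then (⟨X.sv v, X.φ (W.L.t v)⟩ : SP (Sp Pa (Px c)) P) else
      (if v ∈ Zc then fe g v else none).elim 1 fun s => il (G.y s)).right, 1)
    by_cases hv : v ∈ X.E
    · rw [if_pos hv, if_pos hv]
    · rw [if_neg hv, if_neg hv]
      by_cases hz : v ∈ Zc
      · rw [if_pos hz, if_pos hz]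
        unfold fe
        cases g v with
        | none => rfl
        | some a => rfl
      · rw [if_neg hz, if_neg hz]
        rfl
  · rfl

/-- the letters -/
theorem ado_t (hG : ∀ x, G.y x = sy Pa x) (hG' : ∀ x, G'.y x = sy Pa x) (j : Pl K ⊕ Fin A.g) :
    EV hp c M Pa ((adf G' B (fdo hp c M X) W T Zc g).t j) = (adf G B X W T Zc (fe g)).t j := by
  rcases j with v | i
  · show EV hp c M Pa (if v ∈ X.E then (⟨(owl hp c M).inc Pa (X.sv v), (X.φ (W.L.t v), 1)⟩ : SP (So hp c M Pa) (P × Ci p M)) else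
      (if v ∈ Zc then g v else none).elim 1 fun s => il (G'.y s)) =
      if v ∈ X.E then (⟨X.sv v, X.φ (W.L.t v)⟩ : SP (Sp Pa (Px c)) P) else
      (if v ∈ Zc then fe g v else none).elim 1 fun s => il (G.y s)
    by_cases hv : v ∈ X.E
    · rw [if_pos hv, if_pos hv]
      refine SemidirectProduct.ext ?_ rfl
      exact (EV_left _).trans ((owl hp c M).ev_inc Pa _)
    · rw [if_neg hv, if_neg hv]
      by_cases hz : v ∈ Zc
      · rw [if_pos hz, if_pos hz]
        unfold fe
        cases g v with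
        | none => exact map_one _
        | some a =>
          show EV hp c M Pa (il (G'.y a)) = il (G.y (fs a))
          rw [EV_il, hG', OwL.ev_sy, hG]
          rfl
      · rw [if_neg hz, if_neg hz]
        exact map_one _
  · show EV hp c M Pa (⟨(owl hp c M).inc Pa (X.si i), (X.φ (A.a i), 1)⟩ : SP (So hp c M Pa) (P × Ci p M)) =
      (⟨X.si i, X.φ (A.a i)⟩ : SP (Sp Pa (Px c)) P)
    refine SemidirectProduct.ext ?_ rfl
    exact (EV_left _).trans ((owl hp c M).ev_inc Pa _)

theorem ado_ph (w : FW A) : (adf G' B (fdo hp c M X) W T Zc g).ph w = ((adf G B X W T Zc (fe g)).ph w, 1) := by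
  have h : (adf G' B (fdo hp c M X) W T Zc g).ph = (sec p M P).comp (adf G B X W T Zc (fe g)).ph := by
    refine FreeGroup.ext_hom _ _ fun x => ?_
    rw [MonoidHom.comp_apply]
    unfold AD.ph
    rw [FreeGroup.lift_apply_of, FreeGroup.lift_apply_of]
    exact ado_tr x
  exact DFunLike.congr_fun h w

/-- the evaluations -/
theorem ado_th (hG : ∀ x, G.y x = sy Pa x) (hG' : ∀ x, G'.y x = sy Pa x) (τ : Pl K → So hp c M Pa) (w : FW A) :
    EV hp c M Pa ((adf G' B (fdo hp c M X) W T Zc g).th τ w) =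
      (adf G B X W T Zc (fe g)).th (fun v => (owl hp c M).ev Pa (τ v)) w := by
  have h : (EV hp c M Pa).comp ((adf G' B (fdo hp c M X) W T Zc g).th τ) =
      (adf G B X W T Zc (fe g)).th (fun v => (owl hp c M).ev Pa (τ v)) := by
    refine FreeGroup.ext_hom _ _ fun x => ?_
    rw [MonoidHom.comp_apply]
    unfold AD.th
    rw [FreeGroup.lift_apply_of, FreeGroup.lift_apply_of, EV_cj, ado_t hG hG']
    rfl
  exact DFunLike.congr_fun h w

theorem ado_vl (hG : ∀ x, G.y x = sy Pa x) (hG' : ∀ x, G'.y x = sy Pa x) (τ : Pl K → So hp c M Pa) (j : Pl K ⊕ Fin A.g) :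
    EV hp c M Pa ((adf G' B (fdo hp c M X) W T Zc g).vl τ j) =
      (adf G B X W T Zc (fe g)).vl (fun v => (owl hp c M).ev Pa (τ v)) j := by
  unfold AD.vl
  rw [EV_cj, map_inv, ado_th hG hG']
  rfl

theorem ado_bk (hG : ∀ x, G.y x = sy Pa x) (hG' : ∀ x, G'.y x = sy Pa x)
    (x : Pl K ⊕ Fin A.g → SP (So hp c M Pa) (P × Ci p M)) (v : Pl K) :
    EV hp c M Pa ((adf G' B (fdo hp c M X) W T Zc g).bk x v) =
      (adf G B X W T Zc (fe g)).bk (fun j => EV hp c M Pa (x j)) v := by
  unfold AD.bk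
  rw [wd_map]
  exact H73.S3.wd_congr fun j _ => ⟨ado_t hG hG' j, rfl⟩

theorem ado_RR (hG : ∀ x, G.y x = sy Pa x) (hG' : ∀ x, G'.y x = sy Pa x) (τ : Pl K → So hp c M Pa)
    (x : Pl K ⊕ Fin A.g → SP (So hp c M Pa) (P × Ci p M)) :
    EV hp c M Pa ((adf G' B (fdo hp c M X) W T Zc g).RR τ x) =
      (adf G B X W T Zc (fe g)).RR (fun v => (owl hp c M).ev Pa (τ v)) (fun j => EV hp c M Pa (x j)) := by
  unfold AD.RR
  rw [map_list_prod, List.map_map]
  congr 1
  refine List.map_congr_left fun v _ => ?_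
  rw [Function.comp_apply, EV_cj, ado_bk hG hG']

theorem ado_mv (u : (adf G' B (fdo hp c M X) W T Zc g).Jf → So hp c M Pa)
    (u₁ : (adf G B X W T Zc (fe g)).Jf → Sp Pa (Px c))
    (hu : ∀ j (h : j ∈ (adf G' B (fdo hp c M X) W T Zc g).Jf) (h' : j ∈ (adf G B X W T Zc (fe g)).Jf),
      (owl hp c M).ev Pa (u ⟨j, h⟩) = u₁ ⟨j, h'⟩)
    (x : Pl K ⊕ Fin A.g → SP (So hp c M Pa) (P × Ci p M)) (j : Pl K ⊕ Fin A.g) :
    EV hp c M Pa ((adf G' B (fdo hp c M X) W T Zc g).mv u x j) =
      (adf G B X W T Zc (fe g)).mv u₁ (fun j => EV hp c M Pa (x j)) j := by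
  have e : (adf G' B (fdo hp c M X) W T Zc g).Jf = (adf G B X W T Zc (fe g)).Jf := ado_jf
  unfold AD.mv
  by_cases h : j ∈ (adf G B X W T Zc (fe g)).Jf
  · have h' : j ∈ (adf G' B (fdo hp c M X) W T Zc g).Jf := by
      rw [e]
      exact h
    rw [dif_pos h, dif_pos h', map_mul, EV_il, hu j h' h]
  · have h' : j ∉ (adf G' B (fdo hp c M X) W T Zc g).Jf := by
      rw [e]
      exact h
    rw [dif_neg h, dif_neg h']

/-- killing own indices -/
theorem kgo_t (hG' : ∀ x, G'.y x = sy Pa x) (F : Finset (Fin M)) (j : Pl K ⊕ Fin A.g) :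
    KL hp c M Pa F ((adf G' B (fdo hp c M X) W T Zc g).t j) = (adf G' B (fdo hp c M X) W T Zc (kg F g)).t j := by
  rcases j with v | i
  · show KL hp c M Pa F (if v ∈ X.E then (⟨(owl hp c M).inc Pa (X.sv v), (X.φ (W.L.t v), 1)⟩ : SP (So hp c M Pa) (P × Ci p M)) else
      (if v ∈ Zc then g v else none).elim 1 fun s => il (G'.y s)) =
      if v ∈ X.E then (⟨(owl hp c M).inc Pa (X.sv v), (X.φ (W.L.t v), 1)⟩ : SP (So hp c M Pa) (P × Ci p M)) else
      (if v ∈ Zc then kg F g v else none).elim 1 fun s => il (G'.y s)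
    by_cases hv : v ∈ X.E
    · rw [if_pos hv, if_pos hv]
      refine SemidirectProduct.ext ?_ rfl
      exact (KL_left F _).trans ((owl hp c M).kl_inc Pa F _)
    · rw [if_neg hv, if_neg hv]
      by_cases hz : v ∈ Zc
      · rw [if_pos hz, if_pos hz]
        unfold kg
        cases g v with
        | none => exact map_one _
        | some a =>
          show KL hp c M Pa F (il (G'.y a)) = (if ∀ i, ow a = some i → i ∈ F then some a else none).elim 1
            fun s => il (G'.y s)
          rw [KL_il, hG', OwL.kl_sy]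
          by_cases h : ∀ i, ow a = some i → i ∈ F
          · have h' : ∀ i, (owl hp c M).ow a = some i → i ∈ F := h
            rw [if_pos h, if_pos h']
            show _ = il (G'.y a)
            rw [hG']
          · have h' : ¬∀ i, (owl hp c M).ow a = some i → i ∈ F := h
            rw [if_neg h, if_neg h']
            exact il_one
      · rw [if_neg hz, if_neg hz]
        exact map_one _
  · show KL hp c M Pa F (⟨(owl hp c M).inc Pa (X.si i), (X.φ (A.a i), 1)⟩ : SP (So hp c M Pa) (P × Ci p M)) =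
      (⟨(owl hp c M).inc Pa (X.si i), (X.φ (A.a i), 1)⟩ : SP (So hp c M Pa) (P × Ci p M))
    refine SemidirectProduct.ext ?_ rfl
    exact (KL_left F _).trans ((owl hp c M).kl_inc Pa F _)

theorem kgo_th (hG' : ∀ x, G'.y x = sy Pa x) (F : Finset (Fin M)) (τ : Pl K → So hp c M Pa) (w : FW A) :
    KL hp c M Pa F ((adf G' B (fdo hp c M X) W T Zc g).th τ w) =
      (adf G' B (fdo hp c M X) W T Zc (kg F g)).th (fun v => (owl hp c M).kl Pa F (τ v)) w := by
  have h : (KL hp c M Pa F).comp ((adf G' B (fdo hp c M X) W T Zc g).th τ) =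
      (adf G' B (fdo hp c M X) W T Zc (kg F g)).th (fun v => (owl hp c M).kl Pa F (τ v)) := by
    refine FreeGroup.ext_hom _ _ fun x => ?_
    rw [MonoidHom.comp_apply]
    unfold AD.th
    rw [FreeGroup.lift_apply_of, FreeGroup.lift_apply_of, KL_cj, kgo_t hG']
    rfl
  exact DFunLike.congr_fun h w

theorem kgo_vl (hG' : ∀ x, G'.y x = sy Pa x) (F : Finset (Fin M)) (τ : Pl K → So hp c M Pa) (j : Pl K ⊕ Fin A.g) :
    KL hp c M Pa F ((adf G' B (fdo hp c M X) W T Zc g).vl τ j) =
      (adf G' B (fdo hp c M X) W T Zc (kg F g)).vl (fun v => (owl hp c M).kl Pa F (τ v)) j := by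
  unfold AD.vl
  rw [KL_cj, map_inv, kgo_th hG']
  rfl

/-- the evaluation does not depend on the conjugators at the places without letters -/
theorem th_irr {τ τ' : Pl K → So hp c M Pa}
    (h : ∀ v, (∃ j ∈ (adf G' B (fdo hp c M X) W T Zc g).Jf, (adf G' B (fdo hp c M X) W T Zc g).pj j = v) → τ v = τ' v)
    (h1 : ∀ j, j ∉ (adf G' B (fdo hp c M X) W T Zc g).Jf → (adf G' B (fdo hp c M X) W T Zc g).t j = 1) (w : FW A) :
    (adf G' B (fdo hp c M X) W T Zc g).th τ w = (adf G' B (fdo hp c M X) W T Zc g).th τ' w := by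
  have h : (adf G' B (fdo hp c M X) W T Zc g).th τ = (adf G' B (fdo hp c M X) W T Zc g).th τ' := by
    refine FreeGroup.ext_hom _ _ fun x => ?_
    unfold AD.th
    rw [FreeGroup.lift_apply_of, FreeGroup.lift_apply_of]
    by_cases hx : x ∈ (adf G' B (fdo hp c M X) W T Zc g).Jf
    · rw [h _ ⟨x, hx, rfl⟩]
    · rw [h1 x hx]
      unfold cj
      rw [mul_one, mul_inv_cancel, mul_one, mul_inv_cancel]
  exact DFunLike.congr_fun h w

end frm

section swap

variable {p N : ℕ} {P : Type} [Group P] (hp : p.Prime) (c : CL p N P) (M : ℕ) (Pa : Par)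

/-- permutation of the own indices -/
def swb (σ : Equiv.Perm (Fin M)) (b : Px (cO hp c M)) : Px (cO hp c M) := mkx (fs b) ((ow b).map σ)

/-- permutation of the own indices, on the group -/
def swp (σ : Equiv.Perm (Fin M)) : So hp c M Pa →* So hp c M Pa := smap Pa (swb hp c M σ)

variable {hp c M}

theorem swb_smul (σ : Equiv.Perm (Fin M)) (g : P × Ci p M) (b : Px (cO hp c M)) :
    swb hp c M σ (g • b) = g • swb hp c M σ b := by
  show mkx (fs (cjx g b)) ((ow (cjx g b)).map σ) = cjx g (mkx (fs b) ((ow b).map σ))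
  rw [fs_cjx, ow_cjx, cjx_mkx]

theorem swp_sy (σ : Equiv.Perm (Fin M)) (b : Px (cO hp c M)) :
    swp hp c M Pa σ (sy Pa b) = sy Pa (swb hp c M σ b) := smap_sy Pa _ b

theorem swp_smul (σ : Equiv.Perm (Fin M)) (g : P × Ci p M) (x : So hp c M Pa) :
    swp hp c M Pa σ (g • x) = g • swp hp c M Pa σ x := by
  rw [sp_smul, sp_smul]
  unfold swp
  rw [smap_comp, smap_comp]
  have h1 : (fun b => swb hp c M σ (g • b)) = fun b => g • swb hp c M σ b := funext fun b => swb_smul σ g b
  rw [h1]

theorem ev_swp (σ : Equiv.Perm (Fin M)) (x : So hp c M Pa) :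
    (owl hp c M).ev Pa (swp hp c M Pa σ x) = (owl hp c M).ev Pa x := by
  unfold swp OwL.ev
  rw [smap_comp]
  rfl

theorem swp_inc (σ : Equiv.Perm (Fin M)) (x : Sp Pa (Px c)) :
    swp hp c M Pa σ ((owl hp c M).inc Pa x) = (owl hp c M).inc Pa x := by
  unfold swp OwL.inc
  rw [smap_comp]
  have h1 : (fun a => swb hp c M σ ((owl hp c M).pk a none)) = fun a => (owl hp c M).pk a none := funext fun a => by
    show mkx (fs (mkx a none)) ((ow (mkx a none)).map σ) = mkx a none
    rw [fs_mkx, ow_mkx]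
    rfl
  rw [h1]

theorem swp_swp (σ ρ : Equiv.Perm (Fin M)) (x : So hp c M Pa) :
    swp hp c M Pa σ (swp hp c M Pa ρ x) = swp hp c M Pa (σ * ρ) x := by
  unfold swp
  rw [smap_comp]
  have h1 : (fun b => swb hp c M σ (swb hp c M ρ b)) = swb hp c M (σ * ρ) := funext fun b => by
    show mkx (fs (mkx (fs b) ((ow b).map ρ))) ((ow (mkx (fs b) ((ow b).map ρ))).map σ) = mkx (fs b) ((ow b).map (σ * ρ))
    rw [fs_mkx, ow_mkx, Option.map_map]
    rfl
  rw [h1]

/-- permutation of the own indices, on `SP S' P'` -/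
def SW (hp : p.Prime) (c : CL p N P) (M : ℕ) (σ : Equiv.Perm (Fin M)) :
    SP (So hp c M Pa) (P × Ci p M) →* SP (So hp c M Pa) (P × Ci p M) :=
  spm (swp hp c M Pa σ) (MonoidHom.id _) fun g x => swp_smul Pa σ g x

end swap

end H48.OW
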