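import Pool.Agent.H48.OW.Cls
import Pool.Agent.H93.OW.Bxt
import Pool.Agent.H97.OW.Def
import Pool.Agent.H62.OW.Adw
import Pool.Agent.H62.OW.Fzi

/-!
# [H48 OW HY] MP_b39724_nt, THEOREM OW, S4: the hypotheses of the box inequality `BxF2` and the frames with own letters

* `Hy`: the hypotheses on the groups, the fibre, the places and the orders. `Hy.okX`, `Hy.okY`: the data without and with own letters satisfy `Okw`.
* `Hq`: the quasi Lie functional `x`, its forms `Bf`, the functional `psi` of the group with own letters.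
-/

set_option autoImplicit false

open scoped NumberField commutatorElement
open IsDedekindDomain
open scoped Classical

noncomputable section

namespace H48.OW

open H63.MA H38.BB H38.BG H57.PC H57.BRA H77.WD H77.WE H77.PC3 H35.CF H35.UB H77.S3 H71.S3 H1.S3
  H73.S3 H73.OW H82.S3 H12.OW H88.OW

attribute [local instance 50] Fintype.ofFinite

variable {K : Type} [Field K] [NumberField K] {Ω : Type} [Field Ω] [Algebra K Ω]
  {p N : ℕ} {ζ : K} {D : RD0 K p ζ} {Q : DP K Ω} {A : GS D Ω} {P : Type} [Group P]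
  {c : CL p N P} {Pa : Par} {q d : ℕ}

/-- the hypotheses on the groups, the fibre and the places -/
structure Hy (hp : p.Prime) (G : SG c (Sp Pa (Px c))) (G' : SG (cO hp c (d + 1)) (So hp c (d + 1) Pa)) (B : SD D Q A)
    (X : FD A P (Sp Pa (Px c))) (W : WF A) (Zc : Finset (Pl K)) (k Mw q : ℕ) : Prop where
  hG : ∀ x, G.y x = sy Pa x
  hG' : ∀ x, G'.y x = sy Pa x
  okF : X.Ok G B W
  okW : W.Ok B k Mw
  zc : Zc ⊆ W.Z
  ez : X.E ⊆ W.Z
  ze : Disjoint Zc X.E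
  pP : IsPGroup p P
  pS : IsPGroup p (Sp Pa (Px c))
  pS' : IsPGroup p (So hp c (d + 1) Pa)
  qe : ∀ s : Sp Pa (Px c), s ^ q = 1
  qe' : ∀ s : So hp c (d + 1) Pa, s ^ q = 1
  q0 : Pa.q 0 ∣ q
  qp : ∃ r, q = p ^ r
  kM : Mw ≤ p ^ k
  mx : Nat.card P * Nat.card (Sp Pa (Px c)) ^ 2 * q ≤ Mw
  mx' : Nat.card (P × Ci p (d + 1)) * Nat.card (So hp c (d + 1) Pa) ^ 2 * q ≤ Mw
  d2 : 2 ≤ d
  dc : d + 2 ≤ Pa.c

/-- the quasi Lie functional and the functional of the group with own letters -/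
structure Hq (hp : p.Prime) (G : SG c (Sp Pa (Px c))) (X : FD A P (Sp Pa (Px c))) (W : WF A) (q d : ℕ)
    (x : (Px c → Du (Sp Pa (Px c)) q (d + 1)) × (P → Du (Sp Pa (Px c)) q (d + 1 + 1)))
    (Bf : ∀ i j : ℕ, Gr (Sp Pa (Px c)) i →+ Gr (Sp Pa (Px c)) j →+ ZMod q) (psi : So hp c (d + 1) Pa → ZMod q) :
    Prop where
  qb : QB G.y (Pa.q (d + 1)) (Rh X W) x.1 x.2 Bf
  ps : H97.OW.PsiO (owl hp c (d + 1)) Pa Bf psi (Rh X W) x.2

theorem ci_pgroup (p M : ℕ) : IsPGroup p (Ci p M) := fun x => ⟨1, by rw [pow_one]; exact ci_pow p M x⟩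

section okw

variable {hp : p.Prime} {G : SG c (Sp Pa (Px c))} {G' : SG (cO hp c (d + 1)) (So hp c (d + 1) Pa)} {B : SD D Q A}
  {X : FD A P (Sp Pa (Px c))} {W : WF A} {Zc : Finset (Pl K)} {k Mw : ℕ}

theorem pp_pgroup {P' : Type} [Group P'] (h : IsPGroup p P) (h' : IsPGroup p P') : IsPGroup p (P × P') := by
  rintro ⟨x, y⟩
  obtain ⟨m, hm⟩ := h x
  obtain ⟨n, hn⟩ := h' y
  refine ⟨m + n, Prod.ext ?_ ?_⟩
  · show x ^ p ^ (m + n) = 1
    rw [pow_add, pow_mul, hm, one_pow]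
  · show y ^ p ^ (m + n) = 1
    rw [add_comm, pow_add, pow_mul, hn, one_pow]

theorem Hy.okX [Finite P] (h : Hy hp G G' B X W Zc k Mw q) (T : ℝ) (f : Pl K → Option (Px c)) :
    (adf G B X W T Zc f).Okw p k Mw q := by
  exact H62.OW.adf_okw hp G B X W h.okF h.okW T Zc h.ze h.zc h.ez f h.pP h.pS h.qe h.kM h.mx h.qp

theorem Hy.okY [Finite P] (h : Hy hp G G' B X W Zc k Mw q) (T : ℝ) (g : Pl K → Option (Px (cO hp c (d + 1)))) :
    (adf G' B (fdo hp c (d + 1) X) W T Zc g).Okw p k Mw q := by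
  have hnz : NeZero p := ⟨hp.ne_zero⟩
  exact H62.OW.adf_okw hp G' B (fdo hp c (d + 1) X) W (fdo_ok h.hG h.hG' h.okF) h.okW T Zc h.ze h.zc h.ez g
    (pp_pgroup h.pP (ci_pgroup p (d + 1))) h.pS' h.qe' h.kM h.mx' h.qp

/-- the frame with own letters lies over the frame without -/
theorem Hy.lf (h : Hy hp G G' B X W Zc k Mw q) (T : ℝ) (g : Pl K → Option (Px (cO hp c (d + 1)))) :
    H62.OW.Lf (adf G B X W T Zc (fe g)) (adf G' B (fdo hp c (d + 1) X) W T Zc g) (EV hp c (d + 1) Pa)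
      ((owl hp c (d + 1)).ev Pa) where
  il := EV_il
  pj := rfl
  bl := rfl
  l := rfl
  W := rfl
  Jf := ado_jf
  pp := ado_pp
  t := ado_t h.hG h.hG'

end okw

end H48.OW
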