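import Pool.Agent.H82.S3.Sgi

/-!
# [H48 OW CH] MP_b39724_nt, THEOREM OW, S4: the group `P × C` and its class list: own letters

`Ci p M`: the elementary abelian group with basis `e_k`, `k : Fin M`; `ei o`: `1` for `none`, `e_k` for `some k` (injective, `ei_inj`).
`cO c M : CL p (N * (M + 1)) (P × Ci p M)`: the elements `(g i, ei o)`. So `Px (cO c M)` is `Px c × Option (Fin M)`: `fs`, `ow`, `mkx`.
`SG` for `S' = Sp Pa (Px (cO c M))`: `sgo_exists`.
-/

set_option autoImplicit false

open scoped Classical commutatorElement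

noncomputable section

namespace H48.OW

open Pool.Agent.H61.Tu H77.PC3 H35.UB H73.S3 H82.S3

/-- the group of the own indices -/
abbrev Ci (p M : ℕ) : Type := Multiplicative (Fin M → ZMod p)

/-- the element of an index -/
def ei (p M : ℕ) (o : Option (Fin M)) : Ci p M := o.elim 1 fun k => Multiplicative.ofAdd (Pi.single k 1)

theorem ei_none (p M : ℕ) : ei p M none = 1 := rfl

theorem ei_inj {p : ℕ} (hp : p.Prime) (M : ℕ) : Function.Injective (ei p M) := by
  have hf : Fact (1 < p) := ⟨hp.one_lt⟩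
  have h1 : ∀ k : Fin M, (Pi.single k 1 : Fin M → ZMod p) ≠ 0 := fun k h => by
    have h2 := congrFun h k
    rw [Pi.single_eq_same] at h2
    exact one_ne_zero h2
  rintro (_ | k) (_ | j) h
  · rfl
  · exact absurd (Multiplicative.ofAdd.injective h.symm : (Pi.single j 1 : Fin M → ZMod p) = 0) (h1 j)
  · exact absurd (Multiplicative.ofAdd.injective h : (Pi.single k 1 : Fin M → ZMod p) = 0) (h1 k)
  · have h2 : (Pi.single k 1 : Fin M → ZMod p) = Pi.single j 1 := Multiplicative.ofAdd.injective h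
    by_contra hne
    have h3 : k ≠ j := fun h4 => hne (by rw [h4])
    have h4 := congrFun h2 k
    rw [Pi.single_eq_same, Pi.single_eq_of_ne h3] at h4
    exact one_ne_zero h4

theorem ei_pow (p M : ℕ) (o : Option (Fin M)) : ei p M o ^ p = 1 := by
  rcases o with _ | k
  · exact one_pow _
  · show (Multiplicative.ofAdd (Pi.single k 1 : Fin M → ZMod p)) ^ p = 1
    rw [← ofAdd_nsmul]
    have h : p • (Pi.single k 1 : Fin M → ZMod p) = 0 := by
      funext j
      rw [Pi.smul_apply, Pi.zero_apply, nsmul_eq_mul, CharP.cast_eq_zero, zero_mul]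
    rw [h]
    rfl

theorem ci_pow (p M : ℕ) (x : Ci p M) : x ^ p = 1 := by
  have h : p • (Multiplicative.toAdd x) = 0 := by
    funext j
    rw [Pi.smul_apply, Pi.zero_apply, nsmul_eq_mul, CharP.cast_eq_zero, zero_mul]
  have h1 : Multiplicative.toAdd (x ^ p) = 0 := by
    rw [toAdd_pow]
    exact h
  exact Multiplicative.toAdd.injective h1

section cl

variable {p N : ℕ} {P : Type} [Group P]

/-- conjugation in `P × C` -/
theorem conj_iff {M : ℕ} (x y : P × Ci p M) : IsConj x y ↔ IsConj x.1 y.1 ∧ x.2 = y.2 := by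
  rw [isConj_iff, isConj_iff]
  constructor
  · rintro ⟨c, rfl⟩
    refine ⟨⟨c.1, rfl⟩, ?_⟩
    show x.2 = c.2 * x.2 * c.2⁻¹
    rw [mul_comm c.2, mul_inv_cancel_right]
  · rintro ⟨⟨c, hc⟩, h⟩
    refine ⟨(c, 1), Prod.ext ?_ ?_⟩
    · exact hc
    · show 1 * x.2 * 1⁻¹ = y.2
      rw [one_mul, inv_one, mul_one, h]

/-- the indices -/
def ix (N M : ℕ) : Fin (N * (M + 1)) ≃ Fin N × Option (Fin M) :=
  finProdFinEquiv.symm.trans (Equiv.prodCongr (Equiv.refl _) (finSuccEquiv M))

/-- the class list of `P × C` -/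
def cO (hp : p.Prime) (c : CL p N P) (M : ℕ) : CL p (N * (M + 1)) (P × Ci p M) where
  g i := (c.g (ix N M i).1, ei p M (ix N M i).2)
  pow i := Prod.ext (c.pow _) (ei_pow _ _ _)
  ne i h := c.ne _ (congrArg Prod.fst h)
  uni i j h := by
    obtain ⟨h1, h2⟩ := (conj_iff _ _).1 h
    exact (ix N M).injective (Prod.ext (c.uni _ _ h1) (ei_inj hp M h2))

variable {hp : p.Prime} {c : CL p N P} {M : ℕ}

/-- the label in `P` -/
def fs (x : Px (cO hp c M)) : Px c := ⟨x.1.1, (ix N M (cid x)).1, ((conj_iff _ _).1 (cid_spec x)).1⟩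

/-- the own index -/
def ow (x : Px (cO hp c M)) : Option (Fin M) := (ix N M (cid x)).2

theorem ow_spec (x : Px (cO hp c M)) : x.1.2 = ei p M (ow x) := ((conj_iff _ _).1 (cid_spec x)).2

/-- the label with given components -/
def mkx (a : Px c) (o : Option (Fin M)) : Px (cO hp c M) :=
  ⟨(a.1, ei p M o), (ix N M).symm (cid a, o), (conj_iff _ _).2 (by
    show IsConj a.1 (c.g (ix N M ((ix N M).symm (cid a, o))).1) ∧ ei p M o = ei p M (ix N M ((ix N M).symm (cid a, o))).2
    rw [Equiv.apply_symm_apply]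
    exact ⟨cid_spec a, rfl⟩)⟩

theorem fs_mkx (a : Px c) (o : Option (Fin M)) : fs (mkx (hp := hp) a o) = a := rfl

theorem ow_mkx (a : Px c) (o : Option (Fin M)) : ow (mkx (hp := hp) a o) = o :=
  ei_inj hp M (ow_spec (mkx (hp := hp) a o)).symm

theorem mkx_eta (x : Px (cO hp c M)) : mkx (fs x) (ow x) = x :=
  Subtype.ext (Prod.ext rfl (ow_spec x).symm)

theorem fs_cjx (g : P × Ci p M) (x : Px (cO hp c M)) : fs (cjx g x) = cjx g.1 (fs x) := Subtype.ext rfl

theorem ow_cjx (g : P × Ci p M) (x : Px (cO hp c M)) : ow (cjx g x) = ow x := by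
  refine ei_inj hp M ?_
  rw [← ow_spec, ← ow_spec]
  show g.2 * x.1.2 * g.2⁻¹ = x.1.2
  rw [mul_comm g.2, mul_inv_cancel_right]

theorem cjx_mkx (g : P × Ci p M) (a : Px c) (o : Option (Fin M)) :
    cjx g (mkx (hp := hp) a o) = mkx (cjx g.1 a) o := by
  rw [← mkx_eta (cjx g (mkx a o)), fs_cjx, ow_cjx, fs_mkx, ow_mkx]

end cl

end H48.OW
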