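import Pool.Agent.H48.OW.Pid
import Pool.Agent.H93.OW.Cia
import Pool.Agent.H57.OW.C6q

/-!
# [H48 OW CIB] MP_b39724_nt, THEOREM OW, S4: the cell identity `CI` of the summand of the box inequality

* `rcl_ne`: if the constant `rcl` of a class is not zero, then `Rp`, `Cn2`, `Kr2 ≠ 0` at the representative, and `OK2` for the values.
* `ci_sm2`: `CI` for `sm2` and the group with own letters, from `Hy`, `Hq` and `hul` (the tuples are not unlinked).
-/

set_option autoImplicit false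

open scoped NumberField commutatorElement
open IsDedekindDomain
open scoped Classical

noncomputable section

namespace H48.OW

open H63.MA H38.BB H38.BG H57.PC H57.BRA H77.WD H77.WE H77.PC3 H35.CF H35.UB H77.S3 H71.S3 H1.S3
  H24.RK H73.S3 H73.OW H82.S3 H12.OW H88.OW H35.OW

open H93.OW (ixv CI sm2 ci_gen Cdo cod cod_card cod_mis cod_iff gdb_bl pp_v)

open H70.OW (rhc rh1 bO lO)

open H62.OW (O2q OK2)

open H93.BX (Mis)

attribute [local instance 50] Fintype.ofFinite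

variable {K : Type} [Field K] [NumberField K] {Ω : Type} [Field Ω] [Algebra K Ω]
  {p N : ℕ} {ζ : K} {D : RD0 K p ζ} {Q : DP K Ω} {A : GS D Ω} {P : Type} [Group P] {hp : p.Prime}
  {c : CL p N P} {Pa : Par} {q d n : ℕ}

section ne

variable {G : SG c (Sp Pa (Px c))} {G' : SG (cO hp c (d + 1)) (So hp c (d + 1) Pa)}
  {B : SD D Q A} {X : FD A P (Sp Pa (Px c))} {W : WF A} {T : ℝ} {Zc : Finset (Pl K)}

theorem rcl_ne {psi : So hp c (d + 1) Pa → ZMod q} {τ₀ : Pl K → Sp Pa (Px c)}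
    {e₀ : Pl K ⊕ Fin A.g → El2 (Sp Pa (Px c)) P q d} {b : Pl K → Option (Elb2 c (Sp Pa (Px c)) q d)}
    {l : Fin (d + 1) → Elb2 c (Sp Pa (Px c)) q d} {v₀ : Fin (d + 1) → Pl K}
    {hx : ∀ f : Pl K → Option (Px c), (adf G B X W T Zc f).Jf →
      Du (Sp Pa (Px c)) q (d + 1) × Du (Sp Pa (Px c)) q (d + 1 + 1)}
    {a : Fin (d + 1) → Px c} {Mr : ℕ} {κ : sp Zc b → Du (So hp c (d + 1) Pa) q (d + 1)}
    {κ' : Fin (d + 1) → Du (So hp c (d + 1) Pa) q (d + 1)} (hG : ∀ x, G.y x = sy Pa x)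
    (hG' : ∀ x, G'.y x = sy Pa x) (h : rcl G G' B X W T Zc psi τ₀ e₀ b l v₀ hx a Mr κ κ' ≠ 0) :
    Rp G B X W T Zc a e₀ (up b v₀ l) v₀ ∧ Cn2 G B X W T Zc hx Mr e₀ (up b v₀ l) ∧
      (adx2 G B X W T Zc (up b v₀ l)).Kr2 (ef2 e₀ (up b v₀ l))
        ((adx2 G B X W T Zc (up b v₀ l)).vl (tf2 τ₀ (up b v₀ l))) ≠ 0 ∧
      ∀ k, OK2 Pa (owl hp c (d + 1)) (sy Pa (l k).1) (κ' k) := by
  unfold rcl at h
  by_cases h1 : (Rp G B X W T Zc a e₀ (up b v₀ l) v₀ ∧ Cn2 G B X W T Zc hx Mr e₀ (up b v₀ l)) ∧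
      (∀ w : sp Zc b, PPc X W T w → O2q hp (d + 1) Pa b w (κ w)) ∧
      ∀ k, OK2 Pa (owl hp c (d + 1)) (sy Pa (l k).1) (κ' k)
  · rw [if_pos h1] at h
    refine ⟨h1.1.1, h1.1.2, ?_, h1.2.2⟩
    have h2 := H57.OW.kr2_rhc h
    have h3 : (fun j => EV hp c (d + 1) Pa (xq G' B X W T Zc τ₀ (up b v₀ l) v₀ j)) =
        (adx2 G B X W T Zc (up b v₀ l)).vl (tf2 τ₀ (up b v₀ l)) :=
      funext fun j => xq_ev hG hG' B X W T Zc τ₀ (up b v₀ l) v₀ j
    rw [h3] at h2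
    exact h2
  · rw [if_neg h1] at h
    exact absurd rfl h

end ne

/-- THE CELL IDENTITY of the summand -/
theorem ci_sm2 [Finite P] [NeZero q] [Finite (Sp Pa (Px c))] [Finite (So hp c (n + 1 + 1) Pa)]
    {G : SG c (Sp Pa (Px c))} {G' : SG (cO hp c (n + 1 + 1)) (So hp c (n + 1 + 1) Pa)}
    {B : SD D Q A} {X : FD A P (Sp Pa (Px c))} {W : WF A} {T : ℝ} {Zc : Finset (Pl K)} {k Mw : ℕ}
    (hH : Hy hp G G' B X W Zc k Mw q)
    {x : (Px c → Du (Sp Pa (Px c)) q (n + 1 + 1)) × (P → Du (Sp Pa (Px c)) q (n + 1 + 1 + 1))}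
    {Bf : ∀ i j : ℕ, Gr (Sp Pa (Px c)) i →+ Gr (Sp Pa (Px c)) j →+ ZMod q}
    {psi : So hp c (n + 1 + 1) Pa → ZMod q} (hQ : Hq hp G X W q (n + 1) x Bf psi)
    (a : Fin (n + 1 + 1) → Px c) (Mr : ℕ)
    (τ₀ : V0 B X → Sp Pa (Px c)) (e₀ : H73.S3.J0 X → El2 (Sp Pa (Px c)) P q (n + 1))
    (l : Fin (n + 1 + 1) → Elb2 c (Sp Pa (Px c)) q (n + 1))
    (b : Pl K → Option (Elb2 c (Sp Pa (Px c)) q (n + 1)))
    (hul : ∀ v ∈ H35.CF.Fr Zc (PPc X W T) b (n + 1 + 1),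
      Rp G B X W T Zc a (xeG ((0, 0), 1) X e₀) (up b v l) v →
      Cn2 G B X W T Zc (fun f => etX G B X W T Zc f x) Mr (xeG ((0, 0), 1) X e₀) (up b v l) →
      (adx2 G B X W T Zc (up b v l)).Kr2 (ef2 (xeG ((0, 0), 1) X e₀) (up b v l))
        ((adx2 G B X W T Zc (up b v l)).vl (tf2 (xt0 B X τ₀) (up b v l))) ≠ 0 →
      ∀ Qs : Subgroup (Sd (P × Ci p (n + 1 + 1)) (Du (So hp c (n + 1 + 1) Pa) q (n + 1 + 1))),
        ¬Ulk Qs (fun k => G'.y (mkx (l k).1 (some k)))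
          fun k => (etq G' B X W T Zc psi (xt0 B X τ₀) (xeG ((0, 0), 1) X e₀) (up b v l) v
            (Sum.inl (v k))).1) :
    CI G' B (fdo hp c (n + 1 + 1) X) W T Zc q n
      (2 ^ (n + 1 + 1) *
        (Nat.card (SP (So hp c (n + 1 + 1) Pa) (P × Ci p (n + 1 + 1))) : ℝ) ^ (n + 1 + 1) *
        Nat.card (Du (So hp c (n + 1 + 1) Pa) q (n + 1 + 1))) (D.S0.card + A.g + (n + 1 + 1)) b
      (sm2 G B X W T Zc (fun f => etX G B X W T Zc f x) Bf a Mr τ₀ e₀ l b) := by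
  have hpn : NeZero p := ⟨hp.ne_zero⟩
  have hfC : Finite (Ci p (n + 1 + 1)) := inferInstanceAs (Finite (Fin (n + 1 + 1) → ZMod p))
  have hfin : Finite (SP (So hp c (n + 1 + 1) Pa) (P × Ci p (n + 1 + 1))) :=
    Finite.of_injective (fun x => (x.left, x.right)) fun x y h =>
      SemidirectProduct.ext (congrArg Prod.fst h) (congrArg Prod.snd h)
  have hPP : PPc (fdo hp c (n + 1 + 1) X) W T = PPc X W T := funext fun w => propext (ppo X W T w)
  obtain ⟨τ, hτ⟩ : ∃ τ, τ = xt0 B X τ₀ := ⟨_, rfl⟩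
  obtain ⟨e, he⟩ : ∃ e : Pl K ⊕ Fin A.g → El2 (Sp Pa (Px c)) P q (n + 1),
    e = xeG ((0, 0), 1) X e₀ := ⟨_, rfl⟩
  rw [← hτ, ← he] at hul
  refine ci_gen G' B (fdo hp c (n + 1 + 1) X) W T Zc q n _ _ b _
    (Cdo (D := D) hp A c Pa X.E Zc (n + 1) b)
    ((sp Zc b → Du (So hp c (n + 1 + 1) Pa) q (n + 1 + 1)) ×
      (Fin (n + 1 + 1) → Du (So hp c (n + 1 + 1) Pa) q (n + 1 + 1)))
    (cod G' B X W T Zc τ b l) ?_ ?_ ?_
  · have h1 := cod_card (hp := hp) (D := D) (A := A) (c := c) (Pa := Pa) X Zc (d := n + 1) b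
      (Nat.card (Du (So hp c (n + 1 + 1) Pa) q (n + 1 + 1)) : ℝ) (by exact_mod_cast Nat.card_pos)
    refine le_trans (le_of_eq ?_) h1
    congr 1
    rw [Nat.card_eq_fintype_card]
    simp only [Fintype.card_prod, Fintype.card_fun, Fintype.card_coe, Fintype.card_fin]
    push_cast
    rfl
  · rw [hPP]
    intro v₀ _
    obtain ⟨h, h1, h2⟩ := cod_mis G' B X W T Zc τ b l hH.hG' hH.d2 hH.ze
      (fun v hv => hH.okW.zs v (hH.zc hv)) v₀
    refine ⟨h, h1, fun v hv => ?_⟩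
    rw [h2 v hv]
    by_cases h3 : cod G' B X W T Zc τ b l v = cod G' B X W T Zc τ b l v₀
    · rw [if_pos h3, if_pos h3]
    · rw [if_neg h3, if_neg h3]
  · rw [hPP]
    intro v₀ hv₀
    obtain ⟨E, hE⟩ : ∃ E, E = Ecl G' B X W T Zc psi τ e b l v₀ := ⟨_, rfl⟩
    obtain ⟨E', hE'⟩ : ∃ E', E' = Ecv G' B X W T Zc psi τ e b l v₀ := ⟨_, rfl⟩
    have hEE : ∀ k, E' k = E (Sum.inl (v₀ k)) := fun k => by
      rw [hE, hE']
      unfold Ecl Ecv
      rw [if_pos (pp_v hv₀ k)]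
    refine ⟨fun κ =>
      { ρ := rcl G G' B X W T Zc psi τ e b l v₀ (fun f => etX G B X W T Zc f x) a Mr κ.1 κ.2
        l := lO hp c (n + 1 + 1) Pa l E' κ.2
        b' := bO hp c (n + 1 + 1) Pa b E (k0 (sp Zc b) κ.1)
        τ := fun w => (owl hp c (n + 1 + 1)).inc Pa (τ w)
        e := E
        Qs := (adx G' B (fdo hp c (n + 1 + 1) X) W T Zc
          (bO hp c (n + 1 + 1) Pa b E (k0 (sp Zc b) κ.1))).Qp
            (kx G' B (fdo hp c (n + 1 + 1) X) W T Zc E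
              (bO hp c (n + 1 + 1) Pa b E (k0 (sp Zc b) κ.1))) }, ?_, ?_⟩
    · intro κ
      constructor
      · exact rcl_le _ _ _ _ _ _ _ _ _ _ _ _ _ _ _ _ _ _
      · intro h1 h2
        change rcl G G' B X W T Zc psi τ e b l v₀ (fun f => etX G B X W T Zc f x) a Mr κ.1 κ.2 ≠ 0 at h1
        obtain ⟨v, hv, -, hne⟩ := h2
        obtain ⟨h4, h5, h6, h7⟩ := rcl_ne hH.hG hH.hG' h1
        refine ⟨?_, ?_, ?_, ?_⟩
        · show sp Zc (bO hp c (n + 1 + 1) Pa b E (k0 (sp Zc b) κ.1)) = sp Zc b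
          ext w
          rw [mem_sp, mem_sp]
          refine and_congr_right fun _ => not_congr ?_
          unfold bO
          exact Option.map_eq_none_iff
        · have hS : Finite (So hp c (n + 1 + 1) Pa) := inferInstance
          have hk : ∃ k, (Yq G' B X W T Zc (up b v₀ l) v₀).Kx
              (fun j => etq G' B X W T Zc psi τ e (up b v₀ l) v₀ j) k := by
            have hfS : Fintype (So hp c (n + 1 + 1) Pa) := Fintype.ofFinite _
            exact H62.OW.kx_exw _ hp (hH.okY T _) (n + 1) _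
          exact gdb_bl hH.ze hv₀ hk _ _ E hE E' hEE hv hne
        · have h8 := hul v₀ hv₀ h4 h5 h6 ((adx G' B (fdo hp c (n + 1 + 1) X) W T Zc
            (bO hp c (n + 1 + 1) Pa b E (k0 (sp Zc b) κ.1))).Qp
            (kx G' B (fdo hp c (n + 1 + 1) X) W T Zc E
              (bO hp c (n + 1 + 1) Pa b E (k0 (sp Zc b) κ.1))))
          have h9 : (fun k => (lO hp c (n + 1 + 1) Pa l E' κ.2 k).2.2.1.1.1) =
              fun k => (etq G' B X W T Zc psi τ e (up b v₀ l) v₀ (Sum.inl (v₀ k))).1 := by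
            rw [hE']
            rfl
          show ¬Ulk _ (fun k => G'.y (mkx (l k).1 (some k))) fun k =>
            (lO hp c (n + 1 + 1) Pa l E' κ.2 k).2.2.1.1.1
          rw [h9]
          exact h8
        · intro k z
          exact H62.OW.o2_br hH.hG' (h7 k) k z
    · intro v hv hvc
      have hcel : Cel (hp := hp) G' B X W T Zc τ b l v₀ v :=
        (cod_iff G' B X W T Zc τ b l v₀ v).1 hvc
      have h1 := pt_id hH hQ T a Mr τ e b l hv₀ hv hcel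
      show (if Rp G B X W T Zc a (xeG ((0, 0), 1) X e₀) (up b v l) v ∧
          Cn2 G B X W T Zc (fun f => etX G B X W T Zc f x) Mr (xeG ((0, 0), 1) X e₀) (up b v l) then
        FX2 G B X W T Zc (fun f => etX G B X W T Zc f x) Bf (xt0 B X τ₀) (xeG ((0, 0), 1) X e₀)
          (up b v l) else 0) = _
      rw [← he, ← hτ, h1, Fintype.sum_prod_type, hE, hE']

end H48.OW
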