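import Pool.Agent.H48.OW.Sgo
import Pool.Agent.H12.OW.Kil
import Pool.Agent.H73.S3.Adf

/-!
# [H48 OW FDO] MP_b39724_nt, THEOREM OW, S4: the data of a fibre and of a configuration with own letters

`S = Sp Pa (Px c)`, `S' = Sp Pa (Px (cO hp c M))`, `P' = P × Ci p M`.
* `owl`: the instance of `OwL` (H12/OW/Kil). `EV : SP S' P' →* SP S P`.
* `fdo X`: the data of the fibre for `P'`, `S'`: `(φ, 1)`, `(l, 1)`, `inc sv`, `inc si`. `fdo_ok`. `ppo`: the large split primes are the same.
* `fo f`: the configuration with own letters: `mkx (f v) none`. `adf_ev`: the data of a configuration `g` of letters of `S'` and of its image `fe g`: `EV (t' j) = t j`.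
* `th_ev`, `vl_ev`, `bk_ev`, `RR_ev`.
-/

set_option autoImplicit false

open scoped NumberField commutatorElement
open IsDedekindDomain
open scoped Classical

noncomputable section

namespace H48.OW

open H63.MA H38.BB H38.BG H57.PC H57.BRA H77.WD H77.WE H77.PC3 H35.CF H35.UB H77.S3 H71.S3 H1.S3
  H73.S3 H82.S3 H12.OW

section grp

variable {p N : ℕ} {P : Type} [Group P] {hp : p.Prime} {c : CL p N P} {M : ℕ} {Pa : Par}

variable (hp c M) in
/-- the letters with own index -/
def owl : OwL P (P × Ci p M) (Px c) (Px (cO hp c M)) (Fin M) where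
  f := MonoidHom.fst P (Ci p M)
  fs := fs
  ow := ow
  pk a o := mkx a o
  fs_pk := fs_mkx
  ow_pk := ow_mkx
  pk_fs := mkx_eta
  fs_smul g b := fs_cjx g b
  ow_smul g b := ow_cjx g b

variable (hp c M Pa) in
/-- the group with own letters -/
abbrev So : Type := Sp Pa (Px (cO hp c M))

/-- the section `P → P'` -/
def sec (p M : ℕ) (P : Type) [Group P] : P →* P × Ci p M := MonoidHom.inl P (Ci p M)

variable (hp c M Pa) in
/-- the evaluation `SP S' P' → SP S P` -/
def EV : SP (So hp c M Pa) (P × Ci p M) →* SP (Sp Pa (Px c)) P :=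
  spm ((owl hp c M).ev Pa) (MonoidHom.fst P (Ci p M)) fun g x => (owl hp c M).ev_smul Pa g x

variable (hp c M Pa) in
/-- kill the letters of own index not in `D` -/
def KL (D : Finset (Fin M)) : SP (So hp c M Pa) (P × Ci p M) →* SP (So hp c M Pa) (P × Ci p M) :=
  spm ((owl hp c M).kl Pa D) (MonoidHom.id _) fun g x => (owl hp c M).kl_smul Pa D g x

theorem EV_left (x : SP (So hp c M Pa) (P × Ci p M)) : (EV hp c M Pa x).left = (owl hp c M).ev Pa x.left :=
  spm_left _ _ _ _

theorem EV_right (x : SP (So hp c M Pa) (P × Ci p M)) : (EV hp c M Pa x).right = x.right.1 :=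
  spm_right _ _ _ _

theorem EV_il (u : So hp c M Pa) : EV hp c M Pa (il u) = il ((owl hp c M).ev Pa u) := spm_il _ _ _ _

theorem EV_cj (u : So hp c M Pa) (x : SP (So hp c M Pa) (P × Ci p M)) :
    EV hp c M Pa (cj u x) = cj ((owl hp c M).ev Pa u) (EV hp c M Pa x) := by
  unfold cj
  rw [map_mul, map_mul, map_inv, EV_il]

theorem KL_left (D : Finset (Fin M)) (x : SP (So hp c M Pa) (P × Ci p M)) :
    (KL hp c M Pa D x).left = (owl hp c M).kl Pa D x.left := spm_left _ _ _ _

theorem KL_right (D : Finset (Fin M)) (x : SP (So hp c M Pa) (P × Ci p M)) : (KL hp c M Pa D x).right = x.right :=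
  spm_right _ _ _ _

theorem KL_il (D : Finset (Fin M)) (u : So hp c M Pa) : KL hp c M Pa D (il u) = il ((owl hp c M).kl Pa D u) :=
  spm_il _ _ _ _

theorem KL_cj (D : Finset (Fin M)) (u : So hp c M Pa) (x : SP (So hp c M Pa) (P × Ci p M)) :
    KL hp c M Pa D (cj u x) = cj ((owl hp c M).kl Pa D u) (KL hp c M Pa D x) := by
  unfold cj
  rw [map_mul, map_mul, map_inv, KL_il]

theorem pi_inc {G : SG c (Sp Pa (Px c))} {G' : SG (cO hp c M) (So hp c M Pa)} (hG : ∀ x, G.y x = sy Pa x)
    (hG' : ∀ x, G'.y x = sy Pa x) (u : Sp Pa (Px c)) : G'.pi ((owl hp c M).inc Pa u) = (G.pi u, 1) := by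
  have h : G'.pi.comp ((owl hp c M).inc Pa) = (sec p M P).comp G.pi := by
    refine sp_hom_ext Pa _ _ fun a => ?_
    rw [MonoidHom.comp_apply, MonoidHom.comp_apply, OwL.inc_sy, ← hG', G'.pi_y, ← hG, G.pi_y]
    rfl
  exact DFunLike.congr_fun h u

end grp

section nt

variable {K : Type} [Field K] [NumberField K] {Ω : Type} [Field Ω] [Algebra K Ω]
  {p N : ℕ} {ζ : K} {D : RD0 K p ζ} {Q : DP K Ω} {A : GS D Ω} {P : Type} [Group P] {hp : p.Prime}
  {c : CL p N P} {M : ℕ} {Pa : Par}

variable (hp c M) in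
/-- the data of the fibre -/
def fdo (X : FD A P (Sp Pa (Px c))) : FD A (P × Ci p M) (So hp c M Pa) where
  E := X.E
  φ := (sec p M P).comp X.φ
  l := { a := fun i => (X.l.a i, 1), b := fun i => (X.l.b i, 1), t := fun v => (X.l.t v, 1), F := fun v => (X.l.F v, 1) }
  sv v := (owl hp c M).inc Pa (X.sv v)
  si i := (owl hp c M).inc Pa (X.si i)

theorem fdo_ok {G : SG c (Sp Pa (Px c))} {G' : SG (cO hp c M) (So hp c M Pa)} (hG : ∀ x, G.y x = sy Pa x)
    (hG' : ∀ x, G'.y x = sy Pa x) {B : SD D Q A} {X : FD A P (Sp Pa (Px c))} {W : WF A} (h : X.Ok G B W) :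
    (fdo hp c M X).Ok G' B W where
  es := h.es
  unz := by
    have h1 := h.unz
    obtain ⟨⟨E, e1, e2⟩, -⟩ := h1
    exact ⟨⟨E, e1, e2.trans fun σ hσ => by
      rw [MonoidHom.mem_ker] at hσ ⊢
      show (sec p M P) (X.φ σ) = 1
      rw [hσ, map_one]⟩, fun v hv hE => by
      show (sec p M P) (X.φ (W.L.t v)) = 1
      rw [h.unz.2 v hv hE, map_one]⟩
  sv v hv := by
    show G'.pi ((owl hp c M).inc Pa (X.sv v)) * (X.φ (W.L.t v), 1) = (X.l.t v, 1)
    rw [pi_inc hG hG', ← h.sv v hv, Prod.mk_mul_mk, one_mul]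
  si i := by
    show G'.pi ((owl hp c M).inc Pa (X.si i)) * (X.φ (A.a i), 1) = (X.l.a i, 1)
    rw [pi_inc hG hG', ← h.si i, Prod.mk_mul_mk, one_mul]
  lt := by
    refine ⟨fun v hv => ?_, fun v hv => ?_⟩
    · have h1 := h.lt.1 v hv
      have h2 := congrArg (sec p M P) h1
      rw [map_one] at h2
      refine Eq.trans ?_ h2
      unfold H77.S3.blk
      rw [map_list_prod, List.map_map]
      congr 1
      refine List.map_congr_left fun i _ => ?_
      show ⁅(X.l.a i, (1 : Ci p M)), (X.l.b i, (1 : Ci p M))⁆ = (sec p M P) ⁅X.l.a i, X.l.b i⁆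
      rw [map_commutatorElement]
      rfl
    · have h1 := h.lt.2 v hv
      exact Prod.ext h1 (by
        show ⁅(1 : Ci p M), (1 : Ci p M)⁆ = 1
        rw [commutatorElement_one_left])

/-- the large split primes -/
theorem ppo (X : FD A P (Sp Pa (Px c))) (W : WF A) (T : ℝ) (v : Pl K) : PPc (fdo hp c M X) W T v ↔ PPc X W T v := by
  unfold PPc
  refine and_congr_right fun _ => ?_
  show (X.φ (W.Fr.F v), (1 : Ci p M)) = 1 ↔ _
  rw [Prod.mk_eq_one]
  exact and_iff_left rfl

end nt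

end H48.OW
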