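import Pool.Agent.H48.OW.Hy
import Pool.Agent.H12.OW.Mem
import Pool.Agent.H70.OW.Cfq
import Pool.Agent.H86.OW.Cte
import Pool.Agent.H62.OW.Fzq
import Pool.Agent.H57.OW.C6
import Pool.Agent.H93.OW.Obt
import Pool.Agent.H35.OW.Sy2

/-!
# [H48 OW PID] MP_b39724_nt, THEOREM OW, S4: the summand of the box inequality at a tuple of a class

`v₀` the representative of the class, `v` a tuple of the class.
* `Ecl`, `Ecv`: the one layer labels of the class: `etq` and the cells of the values, at `v₀`. `rcl`: the constant of the class and of the values `κ`, `κ'` of the crossed homomorphism.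
* `pt_id`: the summand at `v` is the sum over `κ`, `κ'` of `rcl` times `FX` for the group with own letters at `v`.
* `rcl_le`: the norm of `rcl` is at most `1`. `rcl_O`: if it is not zero then (O) holds. `rcl_ulk`: if it is not zero then the labels are not unlinked.
-/

set_option autoImplicit false

open scoped NumberField commutatorElement
open IsDedekindDomain
open scoped Classical

noncomputable section

namespace H48.OW

open H63.MA H38.BB H38.BG H57.PC H57.BRA H77.WD H77.WE H77.PC3 H35.CF H35.UB H77.S3 H71.S3 H1.S3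
  H73.S3 H73.OW H82.S3 H12.OW H88.OW H35.OW

open H24.OW (ka)

open H93.OW (ixv ixv_of ixv_ne ixv_none ixv_some)

open H70.OW (rhc rh1 bO lO)

open H62.OW (O2q OK2)

attribute [local instance 50] Fintype.ofFinite

variable {K : Type} [Field K] [NumberField K] {Ω : Type} [Field Ω] [Algebra K Ω]
  {p N : ℕ} {ζ : K} {D : RD0 K p ζ} {Q : DP K Ω} {A : GS D Ω} {P : Type} [Group P] {hp : p.Prime}
  {c : CL p N P} {Pa : Par} {q d : ℕ}

section df

variable (G : SG c (Sp Pa (Px c))) (G' : SG (cO hp c (d + 1)) (So hp c (d + 1) Pa)) (B : SD D Q A)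
  (X : FD A P (Sp Pa (Px c))) (W : WF A) (T : ℝ) (Zc : Finset (Pl K))
  (psi : So hp c (d + 1) Pa → ZMod q) (τ₀ : Pl K → Sp Pa (Px c))
  (e₀ : Pl K ⊕ Fin A.g → El2 (Sp Pa (Px c)) P q d) (b : Pl K → Option (Elb2 c (Sp Pa (Px c)) q d))
  (l : Fin (d + 1) → Elb2 c (Sp Pa (Px c)) q d) (v₀ : Fin (d + 1) → Pl K)

/-- the one layer labels of the class -/
def Ecl (j : Pl K ⊕ Fin A.g) : El (So hp c (d + 1) Pa) (P × Ci p (d + 1)) q d :=
  (etq G' B X W T Zc psi τ₀ e₀ (up b v₀ l) v₀ j,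
    rp (if (Yq G' B X W T Zc (up b v₀ l) v₀).pp j then d else d + 1)
      (xq G' B X W T Zc τ₀ (up b v₀ l) v₀ j))

/-- the one layer labels of the variables -/
def Ecv (k : Fin (d + 1)) : El (So hp c (d + 1) Pa) (P × Ci p (d + 1)) q d :=
  (etq G' B X W T Zc psi τ₀ e₀ (up b v₀ l) v₀ (Sum.inl (v₀ k)),
    rp d (xq G' B X W T Zc τ₀ (up b v₀ l) v₀ (Sum.inl (v₀ k))))

/-- the constant of the class -/
def rcl
    (hx : ∀ f : Pl K → Option (Px c), (adf G B X W T Zc f).Jf →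
      Du (Sp Pa (Px c)) q (d + 1) × Du (Sp Pa (Px c)) q (d + 1 + 1))
    (a : Fin (d + 1) → Px c) (Mr : ℕ) (κ : sp Zc b → Du (So hp c (d + 1) Pa) q (d + 1))
    (κ' : Fin (d + 1) → Du (So hp c (d + 1) Pa) q (d + 1)) : ℂ :=
  if (Rp G B X W T Zc a e₀ (up b v₀ l) v₀ ∧ Cn2 G B X W T Zc hx Mr e₀ (up b v₀ l)) ∧
      (∀ w : sp Zc b, PPc X W T w → O2q hp (d + 1) Pa b w (κ w)) ∧
      ∀ k, OK2 Pa (owl hp c (d + 1)) (sy Pa (l k).1) (κ' k) then
    rhc (adx2 G B X W T Zc (up b v₀ l)) (Yq G' B X W T Zc (up b v₀ l) v₀)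
      (EV hp c (d + 1) Pa) psi (tq hp τ₀ (up b v₀ l)) (xq G' B X W T Zc τ₀ (up b v₀ l) v₀)
      (ef2 e₀ (up b v₀ l)) (etq G' B X W T Zc psi τ₀ e₀ (up b v₀ l) v₀)
  else 0

theorem rcl_le
    (hx : ∀ f : Pl K → Option (Px c), (adf G B X W T Zc f).Jf →
      Du (Sp Pa (Px c)) q (d + 1) × Du (Sp Pa (Px c)) q (d + 1 + 1))
    (a : Fin (d + 1) → Px c) (Mr : ℕ) (κ : sp Zc b → Du (So hp c (d + 1) Pa) q (d + 1))
    (κ' : Fin (d + 1) → Du (So hp c (d + 1) Pa) q (d + 1)) :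
    ‖rcl G G' B X W T Zc psi τ₀ e₀ b l v₀ hx a Mr κ κ'‖ ≤ 1 := by
  unfold rcl
  split_ifs
  · exact H70.OW.rhc_le _ _ _ _ _ _ _ _
  · rw [norm_zero]
    exact zero_le_one

end df

section sy

variable {X : FD A P (Sp Pa (Px c))} {W : WF A} {T : ℝ} {Zc : Finset (Pl K)}

/-- `Cn2` is preserved -/
theorem cn2_s {S : Type} [Group S] [MulDistribMulAction P S] {X : FD A P S}
    {f₁ f₂ : Pl K → Option (Elb2 c S q d)}
    {s : Equiv.Perm (Pl K)} (h : SyG X W T Zc f₁ f₂ s) (G : SG c S) (B : SD D Q A)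
    (hx : ∀ f : Pl K → Option (Px c), (adf G B X W T Zc f).Jf →
      Du S q (d + 1) × Du S q (d + 1 + 1))
    (hh : Hxn G B X W T Zc hx) (M : ℕ) (e₀ : Pl K ⊕ Fin A.g → El2 S P q d) :
    Cn2 G B X W T Zc hx M e₀ f₁ ↔ Cn2 G B X W T Zc hx M e₀ f₂ := by
  have ht : TrG (adx2 G B X W T Zc f₁) (adx2 G B X W T Zc f₂) (sgG A s) (tf2 (fun _ => 1) f₁)
      (tf2 (fun _ => 1) f₂) := h.trl G B fun _ => 1
  have hef : ∀ j ∈ (adx2 G B X W T Zc f₁).Jf, ef2 e₀ f₂ (sgG A s j) = ef2 e₀ f₁ j :=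
    fun j hj => h.ef G B e₀ j hj
  have hζ : ∀ j, (adx2 G B X W T Zc f₂).et2 (ef2 e₀ f₂) (ejG ht j) =
      (adx2 G B X W T Zc f₁).et2 (ef2 e₀ f₁) j := by
    intro j
    show (ef2 e₀ f₂ (sgG A s j)).1 = (ef2 e₀ f₁ j).1
    rw [hef j j.2]
  have c1 := ht.ff2 hζ
  have c2 : (adx2 G B X W T Zc f₂).rz ((adx2 G B X W T Zc f₂).et2 (ef2 e₀ f₂)) = hx (lf2 f₂) ↔
      (adx2 G B X W T Zc f₁).rz ((adx2 G B X W T Zc f₁).et2 (ef2 e₀ f₁)) = hx (lf2 f₁) := by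
    have hn : ∀ j : (adx2 G B X W T Zc f₁).Jf, hx (lf2 f₂) (ejG ht j) = hx (lf2 f₁) j :=
      fun j => hh (lf2 f₁) (lf2 f₂) s h.lf j
    constructor
    · intro h1
      funext j
      rw [← ht.rz hζ j, h1, hn j]
    · intro h1
      funext j
      obtain ⟨j, rfl⟩ := (ejG ht).surjective j
      rw [ht.rz hζ j, h1, hn j]
  have c3 : Rich X W T Zc M (lf2 f₁) ↔ Rich X W T Zc M (lf2 f₂) := SyG.rich h.lf M
  unfold Cn2
  rw [c1, c2, c3]

end sy

section pid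

variable {G : SG c (Sp Pa (Px c))} {G' : SG (cO hp c (d + 1)) (So hp c (d + 1) Pa)}
  {B : SD D Q A} {X : FD A P (Sp Pa (Px c))} {W : WF A} {Zc : Finset (Pl K)} {k Mw : ℕ}

/-- THE SUMMAND AT A TUPLE OF THE CLASS -/
theorem pt_id [NeZero q] [Finite P] [Finite (Sp Pa (Px c))] [Finite (So hp c (d + 1) Pa)]
    (hH : Hy hp G G' B X W Zc k Mw q)
    {x : (Px c → Du (Sp Pa (Px c)) q (d + 1)) × (P → Du (Sp Pa (Px c)) q (d + 1 + 1))}
    {Bf : ∀ i j : ℕ, Gr (Sp Pa (Px c)) i →+ Gr (Sp Pa (Px c)) j →+ ZMod q}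
    {psi : So hp c (d + 1) Pa → ZMod q} (hQ : Hq hp G X W q d x Bf psi) (T : ℝ)
    (a : Fin (d + 1) → Px c) (Mr : ℕ) (τ₀ : Pl K → Sp Pa (Px c))
    (e₀ : Pl K ⊕ Fin A.g → El2 (Sp Pa (Px c)) P q d)
    (b : Pl K → Option (Elb2 c (Sp Pa (Px c)) q d)) (l : Fin (d + 1) → Elb2 c (Sp Pa (Px c)) q d)
    {v₀ v : Fin (d + 1) → Pl K} (hv₀ : v₀ ∈ H35.CF.Fr Zc (PPc X W T) b (d + 1))
    (hv : v ∈ H35.CF.Fr Zc (PPc X W T) b (d + 1)) (hc : Cel G' B X W T Zc τ₀ b l v₀ v) :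
    (if Rp G B X W T Zc a e₀ (up b v l) v ∧
        Cn2 G B X W T Zc (fun f => etX G B X W T Zc f x) Mr e₀ (up b v l) then
      FX2 G B X W T Zc (fun f => etX G B X W T Zc f x) Bf τ₀ e₀ (up b v l) else 0) =
      ∑ κ : sp Zc b → Du (So hp c (d + 1) Pa) q (d + 1),
        ∑ κ' : Fin (d + 1) → Du (So hp c (d + 1) Pa) q (d + 1),
        rcl G G' B X W T Zc psi τ₀ e₀ b l v₀ (fun f => etX G B X W T Zc f x) a Mr κ κ' *
        FX G' B (fdo hp c (d + 1) X) W T Zc (fun w => (owl hp c (d + 1)).inc Pa (τ₀ w))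
          (Ecl G' B X W T Zc psi τ₀ e₀ b l v₀)
          (up (bO hp c (d + 1) Pa b (Ecl G' B X W T Zc psi τ₀ e₀ b l v₀) (k0 (sp Zc b) κ)) v
            (lO hp c (d + 1) Pa l (Ecv G' B X W T Zc psi τ₀ e₀ b l v₀) κ')) := by
  obtain ⟨hv1, hvi⟩ := mem_fr.1 hv
  obtain ⟨hv01, hv0i⟩ := mem_fr.1 hv₀
  have hW := hH.okW
  have hd := hH.d2
  -- the symmetry
  obtain ⟨s, hs⟩ := H93.OW.sps_ex v₀ v hv0i hvi
  have ho : H93.OW.oc W.l (H93.OW.Fx D X.E Zc b) v₀ = H93.OW.oc W.l (H93.OW.Fx D X.E Zc b) v := by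
    refine Prod.ext (funext fun w => funext fun k => propext ?_) (funext fun i => funext fun j => propext ?_)
    · exact hc.ob.1 w (H93.OW.mem_fx.1 w.2) k
    · exact hc.ob.2 i j
  have h : SyG X W T Zc (up b v₀ l) (up b v l) s :=
    H93.OW.sy_bit X W T Zc hH.zc hW.zs hW.nd hW.lz hH.ze l b v₀ v hv₀ hv ho hs
  have s1 : ∀ k, s (v₀ k) = v k := hs.k
  have s2 : ∀ w ∈ sp Zc b, s w = w := fun w hw => by
    have h1 := (mem_sp.1 hw).2
    exact hs.o w (fun k hk => h1 (hk ▸ (hv01 k).2.2)) fun k hk => h1 (hk ▸ (hv1 k).2.2)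
  -- the conditions
  have hRp : Rp G B X W T Zc a e₀ (up b v l) v ↔ Rp G B X W T Zc a e₀ (up b v₀ l) v₀ := by
    have h1 := h.rp G B a e₀ v₀ fun k => (H70.OW.sp_up hv₀ l _).2 (Or.inl ⟨k, rfl⟩)
    have h2 : (fun k => s (v₀ k)) = v := funext s1
    rw [h2] at h1
    exact h1.symm
  have hCn := cn2_s h G B (fun f => etX G B X W T Zc f x) (hxn_etX G B X W T Zc x) Mr e₀
  by_cases hcase : Rp G B X W T Zc a e₀ (up b v l) v ∧
      Cn2 G B X W T Zc (fun f => etX G B X W T Zc f x) Mr e₀ (up b v l)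
  swap
  · rw [if_neg hcase]
    symm
    refine Finset.sum_eq_zero fun κ _ => Finset.sum_eq_zero fun κ' _ => ?_
    unfold rcl
    rw [if_neg, zero_mul]
    rintro ⟨⟨h1, h2⟩, -⟩
    exact hcase ⟨hRp.2 h1, hCn.1 h2⟩
  rw [if_pos hcase]
  have hcase0 : Rp G B X W T Zc a e₀ (up b v₀ l) v₀ ∧
      Cn2 G B X W T Zc (fun f => etX G B X W T Zc f x) Mr e₀ (up b v₀ l) :=
    ⟨hRp.1 hcase.1, hCn.2 hcase.2⟩
  have hrz : (adx2 G B X W T Zc (up b v l)).rz ((adx2 G B X W T Zc (up b v l)).et2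
      (ef2 e₀ (up b v l))) = etX G B X W T Zc (lf2 (up b v l)) x := hcase.2.2.1
  -- the family at the values of the class
  have hok : (Yq G' B X W T Zc (up b v l) v).Okw p k Mw q := hH.okY T _
  have okX : (adx2 G B X W T Zc (up b v l)).Okw p k Mw q := hH.okX T _
  have hO := own_q hH T l hv
  obtain ⟨η, hηd⟩ : ∃ η : Pl K ⊕ Fin A.g → Du (So hp c (d + 1) Pa) q d × Du (So hp c (d + 1) Pa) q (d + 1),
      ∀ j, η j = (owl hp c (d + 1)).eta Pa (Yq G' B X W T Zc (up b v l) v) (ixv v)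
        (ka ((owl hp c (d + 1)).ev Pa) psi (Yq G' B X W T Zc (up b v l) v) (tq hp τ₀ (up b v l))
          (x0q G' B X W T Zc τ₀ b l v₀ v) fun j => (ef2 e₀ (up b v l) j).1) j := ⟨_, fun _ => rfl⟩
  have hm : ∀ j ∈ (Yq G' B X W T Zc (up b v l) v).Jf, ∃ g ∈ Kj hp c Pa B v j,
      xq G' B X W T Zc τ₀ (up b v l) v j = il g * x0q G' B X W T Zc τ₀ b l v₀ v j :=
    cls_mem (by omega) hc
  have hη : ∀ j ∈ (Yq G' B X W T Zc (up b v l) v).Jf, ∀ g ∈ Kj hp c Pa B v j,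
      (if (Yq G' B X W T Zc (up b v l) v).pp j then (η j).1.ap (gk d g)
        else (η j).2.ap (gk (d + 1) g)) =
      (if (Yq G' B X W T Zc (up b v l) v).pp j then
          (ef2 e₀ (up b v l) j).1.1.ap (gz d ((owl hp c (d + 1)).ev Pa g))
        else (ef2 e₀ (up b v l) j).1.2.ap (gz (d + 1) ((owl hp c (d + 1)).ev Pa g))) +
        psi (H24.OW.Dj (Yq G' B X W T Zc (up b v l) v) (tq hp τ₀ (up b v l))
          (x0q G' B X W T Zc τ₀ b l v₀ v) j g) := by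
    intro j hj g hg
    rw [hηd j]
    exact heta_q hH hQ T τ₀ e₀ hO hrz hm j hj g hg
  have hQp := psio_pso hQ.ps
  have hno : ∀ j ∈ (Yq G' B X W T Zc (up b v l) v).Jf, ¬(Yq G' B X W T Zc (up b v l) v).pp j →
      ixv v ((Yq G' B X W T Zc (up b v l) v).pj j) = none := fun j hj hpj => hO.no hj hpj
  have hfz := H62.OW.fzq hH.hG hH.hG' hH.ze τ₀ e₀ (up b v l) v okX hok hO hQp.pk
    (fun i j hi hj hij J J' hJ => hQp.br i j hi hj hij J J' (un_inst _ _ J J' hJ)) hd hQ.qb hrz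
    (x0q G' B X W T Zc τ₀ b l v₀ v) hm η (fun j hj hpj g hg => by
      have h1 := hη j hj g (by
        show g ∈ (owl hp c (d + 1)).Kk Pa (Tv (ixv v) ((Yq G' B X W T Zc (up b v l) v).pj j))
        rw [tv_none (hno j hj hpj)]
        exact hg)
      rw [if_neg hpj, if_neg hpj] at h1
      exact h1) (fun j hj hpj z => by
      rw [hηd j]
      exact OwL.eta_pr _ _ _ (hno j hj hpj) z)
  -- the labels
  have hsy := H86.OW.syg_gq (hp := hp) h hv0i hvi s1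
  have hE1 : ∀ j ∈ (Yq G' B X W T Zc (up b v₀ l) v₀).Jf,
      η (sgG A s j) = etq G' B X W T Zc psi τ₀ e₀ (up b v₀ l) v₀ j := fun j hj => by
    rw [hηd]
    exact H86.OW.c3_eta h hv₀ hv s1 s2 G' B τ₀ psi e₀ hj
  have hsj : ∀ j ∈ (Yq G' B X W T Zc (up b v l) v).Jf, (∀ k, Sum.inl (v k) ≠ j) →
      sgG A s j = j ∧ j ∈ (Yq G' B X W T Zc (up b v₀ l) v₀).Jf := by
    intro j hj hne
    have e1 : sgG A s j = j := by
      rcases j with w | i
      · rw [sgG_inl]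
        congr 1
        rw [memG_jf, H86.OW.sp_gq] at hj
        rcases hj with hj | hj
        · refine s2 w ?_
          rw [mem_sp, up_ne _ _ _ _ fun k hk => hne k (congrArg Sum.inl hk)] at hj
          exact mem_sp.2 hj
        · exact h.e w hj
      · exact sgG_inr s i
    refine ⟨e1, (hsy.jf G' B j).2 ?_⟩
    rw [e1]
    exact hj
  have hcel := H70.OW.cel_fq (hp := hp) hH.hG hH.hG' B X W T Zc (fun f => etX G B X W T Zc f x) Bf τ₀ e₀ b l hv hok hO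
    hQp.pk hd (x0q G' B X W T Zc τ₀ b l v₀ v) hm η hη (O2q hp (d + 1) Pa (up b v l)) hfz
    (Ecl G' B X W T Zc psi τ₀ e₀ b l v₀) (fun j hj hne => by
      obtain ⟨e1, hj0⟩ := hsj j hj hne
      have h2 := hE1 j hj0
      have h3 := H86.OW.x0q_s h hv s1 s2 G' B τ₀ hj0
      have h4 := hsy.pp G' B j
      rw [e1] at h2 h3 h4
      unfold Ecl
      rw [h2, h3, if_congr h4 rfl rfl]) (Ecv G' B X W T Zc psi τ₀ e₀ b l v₀) (fun k => by
      have hj0 : Sum.inl (v₀ k) ∈ (Yq G' B X W T Zc (up b v₀ l) v₀).Jf := by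
        rw [memG_jf, H86.OW.sp_gq]
        exact Or.inl ((H70.OW.sp_up hv₀ l _).2 (Or.inl ⟨k, rfl⟩))
      have h2 := hE1 _ hj0
      have h3 := H86.OW.x0q_s h hv s1 s2 G' B τ₀ hj0
      rw [sgG_inl, s1] at h2 h3
      unfold Ecv
      rw [h2, h3])
  rw [hcel]
  refine Finset.sum_congr rfl fun κ _ => Finset.sum_congr rfl fun κ' _ => ?_
  congr 1
  have hrh : rhc (adx2 G B X W T Zc (up b v l)) (Yq G' B X W T Zc (up b v l) v)
      (EV hp c (d + 1) Pa) psi (tq hp τ₀ (up b v l)) (x0q G' B X W T Zc τ₀ b l v₀ v)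
      (ef2 e₀ (up b v l)) η =
      rhc (adx2 G B X W T Zc (up b v₀ l)) (Yq G' B X W T Zc (up b v₀ l) v₀)
      (EV hp c (d + 1) Pa) psi (tq hp τ₀ (up b v₀ l)) (xq G' B X W T Zc τ₀ (up b v₀ l) v₀)
      (ef2 e₀ (up b v₀ l)) (etq G' B X W T Zc psi τ₀ e₀ (up b v₀ l) v₀) :=
    H86.OW.c3_rhc h hv₀ hv s1 s2 G' B τ₀ G psi e₀ fun j _ => hηd j
  rw [hrh]
  unfold rcl
  refine if_congr ?_ rfl rfl
  have hO2 : (∀ w : sp Zc b, PPc X W T w → O2q hp (d + 1) Pa (up b v l) w (κ w)) ↔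
      ∀ w : sp Zc b, PPc X W T w → O2q hp (d + 1) Pa b w (κ w) := by
    refine forall_congr' fun w => forall_congr' fun _ => H62.OW.o2_b (fun k hk => ?_) _
    exact (mem_sp.1 w.2).2 (hk ▸ (hv1 k).2.2)
  have hO3 : (∀ k, O2q hp (d + 1) Pa (up b v l) (v k) (κ' k)) ↔
      ∀ k, OK2 Pa (owl hp c (d + 1)) (sy Pa (l k).1) (κ' k) :=
    forall_congr' fun k => H62.OW.o2_v hvi k _
  rw [hO2, hO3]
  exact ⟨fun h1 => ⟨hcase0, h1.2⟩, fun h1 => ⟨hrz, h1.2⟩⟩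

end pid

end H48.OW
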